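import Mathlib

set_option autoImplicit false

/-!
# Sums of `1 - 1 / e`
-/

namespace Pool.Agent.H6.VA

open Finset

private lemma Arith_inv_le {n m : ℕ} (h : n ≤ m) (hn : 1 ≤ n) : 1 / (m : ℝ) ≤ 1 / (n : ℝ) := by
  have h1 : (0 : ℝ) < n := by exact_mod_cast hn
  have h2 : (n : ℝ) ≤ m := by exact_mod_cast h
  exact one_div_le_one_div_of_le h1 h2

private lemma Arith_inv_pos {m : ℕ} (hn : 1 ≤ m) : 0 < 1 / (m : ℝ) := by
  have h1 : (0 : ℝ) < m := by exact_mod_cast hn
  positivity

private lemma Arith_sorted {x y z : ℕ} (hx : 2 ≤ x) (hxy : x ≤ y) (hyz : y ≤ z)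
    (h : 1 / (x : ℝ) + 1 / (y : ℝ) + 1 / (z : ℝ) < 1) :
    1 / (x : ℝ) + 1 / (y : ℝ) + 1 / (z : ℝ) ≤ 41 / 42 := by
  have pz : 0 < 1 / (z : ℝ) := Arith_inv_pos (by omega)
  rcases Nat.lt_or_ge x 4 with h4 | h4
  · have hx' : x = 2 ∨ x = 3 := by omega
    rcases hx' with rfl | rfl
    · rcases Nat.lt_or_ge y 5 with h5 | h5
      · have hy' : y = 2 ∨ y = 3 ∨ y = 4 := by omega
        rcases hy' with rfl | rfl | rfl
        · exfalso; push_cast at h; linarith
        · have hz : 7 ≤ z := by
            by_contra hz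
            have := Arith_inv_le (n := z) (m := 6) (by omega) (by omega)
            push_cast at h this; linarith
          have := Arith_inv_le (n := 7) (m := z) hz (by norm_num)
          push_cast at h this ⊢; linarith
        · have hz : 5 ≤ z := by
            by_contra hz
            have := Arith_inv_le (n := z) (m := 4) (by omega) (by omega)
            push_cast at h this; linarith
          have := Arith_inv_le (n := 5) (m := z) hz (by norm_num)
          push_cast at h this ⊢; linarith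
      · have h1 := Arith_inv_le (n := 5) (m := y) h5 (by norm_num)
        have h2 := Arith_inv_le (n := 5) (m := z) (by omega) (by norm_num)
        push_cast at h h1 h2 ⊢; linarith
    · rcases Nat.lt_or_ge y 4 with h5 | h5
      · have hy' : y = 3 := by omega
        subst hy'
        have hz : 4 ≤ z := by
          by_contra hz
          have := Arith_inv_le (n := z) (m := 3) (by omega) (by omega)
          push_cast at h this; linarith
        have := Arith_inv_le (n := 4) (m := z) hz (by norm_num)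
        push_cast at h this ⊢; linarith
      · have h1 := Arith_inv_le (n := 4) (m := y) h5 (by norm_num)
        have h2 := Arith_inv_le (n := 4) (m := z) (by omega) (by norm_num)
        push_cast at h h1 h2 ⊢; linarith
  · have h0 := Arith_inv_le (n := 4) (m := x) h4 (by norm_num)
    have h1 := Arith_inv_le (n := 4) (m := y) (by omega) (by norm_num)
    have h2 := Arith_inv_le (n := 4) (m := z) (by omega) (by norm_num)
    push_cast at h h0 h1 h2 ⊢; linarith

private lemma Arith_three {x y z : ℕ} (hx : 2 ≤ x) (hy : 2 ≤ y) (hz : 2 ≤ z)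
    (h : 1 / (x : ℝ) + 1 / (y : ℝ) + 1 / (z : ℝ) < 1) :
    1 / (x : ℝ) + 1 / (y : ℝ) + 1 / (z : ℝ) ≤ 41 / 42 := by
  rcases le_total x y with h1 | h1 <;> rcases le_total y z with h2 | h2 <;>
    rcases le_total x z with h3 | h3
  · exact Arith_sorted hx h1 h2 h
  · exact Arith_sorted hx h1 h2 h
  · have := Arith_sorted hx h3 h2 (by linarith); linarith
  · have := Arith_sorted hz h3 h1 (by linarith); linarith
  · have := Arith_sorted hy h1 h3 (by linarith); linarith
  · have := Arith_sorted hy h2 h3 (by linarith); linarith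
  · have := Arith_sorted hz h2 h1 (by linarith); linarith
  · have := Arith_sorted hz h2 h1 (by linarith); linarith

private lemma Arith_seven {x y z : ℕ} (hx : 2 ≤ x) (hy : 2 ≤ y) (hz : 7 ≤ z) :
    1 / (x : ℝ) + 1 / (y : ℝ) + 1 / (z : ℝ) ≠ 1 := by
  intro h
  have pz : 0 < 1 / (z : ℝ) := Arith_inv_pos (by omega)
  have h7 := Arith_inv_le (n := 7) (m := z) hz (by norm_num)
  rcases Nat.lt_or_ge x 3 with h3 | h3
  · have hx' : x = 2 := by omega
    subst hx'
    rcases Nat.lt_or_ge y 3 with h4 | h4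
    · have hy' : y = 2 := by omega
      subst hy'
      push_cast at h h7; linarith
    · have h5 := Arith_inv_le (n := 3) (m := y) h4 (by norm_num)
      push_cast at h h7 h5; linarith
  · have h6 := Arith_inv_le (n := 3) (m := x) h3 (by norm_num)
    have h5 := Arith_inv_le (n := 2) (m := y) hy (by norm_num)
    push_cast at h h7 h5 h6; linarith

private lemma Arith_sum {N : ℕ} (e : Fin N → ℕ) (he : ∀ i, 1 ≤ e i) :
    ∑ i, (1 - 1 / (e i : ℝ)) = ∑ i ∈ univ.filter (fun i => 2 ≤ e i), (1 - 1 / (e i : ℝ)) := by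
  rw [Finset.sum_filter]
  refine Finset.sum_congr rfl fun i _ => ?_
  split_ifs with h
  · rfl
  · have : e i = 1 := by have := he i; omega
    rw [this]; norm_num

private lemma Arith_card_lt {N : ℕ} (e : Fin N → ℕ) (T : Finset (Fin N)) (hT : ∀ i ∈ T, 2 ≤ e i)
    (h2 : 2 ≤ ∑ i ∈ T, (1 - 1 / (e i : ℝ))) : 3 ≤ T.card := by
  by_contra hc
  have hc' : T.card ≤ 2 := by omega
  rcases T.eq_empty_or_nonempty with rfl | hne
  · simp at h2; linarith
  · have : ∑ i ∈ T, (1 - 1 / (e i : ℝ)) < ∑ i ∈ T, (1 : ℝ) := by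
      refine Finset.sum_lt_sum_of_nonempty hne fun i hi => ?_
      have := Arith_inv_pos (m := e i) (by have := hT i hi; omega)
      linarith
    simp only [sum_const, nsmul_eq_mul, mul_one] at this
    have h3 : (T.card : ℝ) ≤ 2 := by exact_mod_cast hc'
    linarith

private lemma Arith_half {N : ℕ} (e : Fin N → ℕ) (T : Finset (Fin N)) (hT : ∀ i ∈ T, 2 ≤ e i) :
    (T.card : ℝ) / 2 ≤ ∑ i ∈ T, (1 - 1 / (e i : ℝ)) := by
  have : ∑ i ∈ T, (1 / 2 : ℝ) ≤ ∑ i ∈ T, (1 - 1 / (e i : ℝ)) := by
    refine Finset.sum_le_sum fun i hi => ?_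
    have := Arith_inv_le (n := 2) (m := e i) (hT i hi) (by norm_num)
    push_cast at this; linarith
  simp only [sum_const, nsmul_eq_mul] at this
  linarith

private lemma Arith_four {N : ℕ} (e : Fin N → ℕ) (T : Finset (Fin N)) (hT : ∀ i ∈ T, 2 ≤ e i)
    (hc : 4 ≤ T.card) (i : Fin N) (hi : i ∈ T) (h3 : 3 ≤ e i) :
    2 + 1 / 6 ≤ ∑ i ∈ T, (1 - 1 / (e i : ℝ)) := by
  rw [← Finset.add_sum_erase T _ hi]
  have h1 := Arith_half e (T.erase i) (fun j hj => hT j (Finset.mem_of_mem_erase hj))
  rw [Finset.card_erase_of_mem hi] at h1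
  have h2 : (3 : ℝ) ≤ ((T.card - 1 : ℕ) : ℝ) := by exact_mod_cast (by omega : 3 ≤ T.card - 1)
  have := Arith_inv_le (n := 3) (m := e i) h3 (by norm_num)
  push_cast at this; linarith

/-- Above `2` the next value is `2 + 1 / 42`. -/
theorem gap {N : ℕ} (e : Fin N → ℕ) (he : ∀ i, 1 ≤ e i)
    (h : 2 < ∑ i, (1 - 1 / (e i : ℝ))) : 2 + 1 / 42 ≤ ∑ i, (1 - 1 / (e i : ℝ)) := by
  rw [Arith_sum e he] at h ⊢
  set T := univ.filter (fun i => 2 ≤ e i) with hTdef
  have hT : ∀ i ∈ T, 2 ≤ e i := fun i hi => (Finset.mem_filter.mp hi).2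
  have h3 := Arith_card_lt e T hT h.le
  rcases Nat.lt_or_ge T.card 4 with h4 | h4
  · have hc : T.card = 3 := by omega
    obtain ⟨a, b, c, hab, hac, hbc, hTe⟩ := Finset.card_eq_three.mp hc
    have ha := hT a (by rw [hTe]; simp)
    have hb := hT b (by rw [hTe]; simp)
    have hc' := hT c (by rw [hTe]; simp)
    have hs : ∑ i ∈ T, (1 - 1 / (e i : ℝ)) =
        (1 - 1 / (e a : ℝ)) + ((1 - 1 / (e b : ℝ)) + (1 - 1 / (e c : ℝ))) := by
      rw [hTe, Finset.sum_insert (by simp [hab, hac]), Finset.sum_insert (by simp [hbc]),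
        Finset.sum_singleton]
    rw [hs] at h ⊢
    have := Arith_three ha hb hc' (by linarith)
    linarith
  · by_cases hall : ∀ i ∈ T, e i = 2
    · have hs : ∑ i ∈ T, (1 - 1 / (e i : ℝ)) = (T.card : ℝ) / 2 := by
        rw [Finset.sum_congr rfl (fun i hi => by rw [hall i hi])]
        simp only [sum_const, nsmul_eq_mul]; push_cast; ring
      rw [hs] at h ⊢
      have h5 : (4 : ℝ) < T.card := by linarith
      have h6 : 5 ≤ T.card := by exact_mod_cast h5
      have h7 : (5 : ℝ) ≤ T.card := by exact_mod_cast h6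
      linarith
    · push Not at hall
      obtain ⟨i, hi, hne⟩ := hall
      have h2 := hT i hi
      have := Arith_four e T hT h4 i hi (by omega)
      linarith

/-- The Euclidean case. -/
theorem euclid {N : ℕ} (e : Fin N → ℕ) (he : ∀ i, 1 ≤ e i)
    (h : ∑ i, (1 - 1 / (e i : ℝ)) = 2) (i : Fin N) : e i ≤ 6 := by
  rw [Arith_sum e he] at h
  set T := univ.filter (fun i => 2 ≤ e i) with hTdef
  have hT : ∀ i ∈ T, 2 ≤ e i := fun i hi => (Finset.mem_filter.mp hi).2
  by_contra hi6
  have hi : i ∈ T := by rw [hTdef]; simp; omega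
  have h3 := Arith_card_lt e T hT h.ge
  rcases Nat.lt_or_ge T.card 4 with h4 | h4
  · have hc : (T.erase i).card = 2 := by rw [Finset.card_erase_of_mem hi]; omega
    obtain ⟨a, b, hab, hTe⟩ := Finset.card_eq_two.mp hc
    have ha := hT a (Finset.mem_of_mem_erase (by rw [hTe]; simp : a ∈ T.erase i))
    have hb := hT b (Finset.mem_of_mem_erase (by rw [hTe]; simp : b ∈ T.erase i))
    rw [← Finset.add_sum_erase T _ hi, hTe, Finset.sum_pair hab] at h
    exact Arith_seven ha hb (z := e i) (by omega) (by linarith)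
  · have := Arith_four e T hT h4 i hi (by omega)
    linarith

/-- The spherical case. -/
theorem sphere {N : ℕ} (hN : 4 ≤ N) (e : Fin N → ℕ) (he : ∀ i, 1 ≤ e i)
    (h : ∑ i, (1 - 1 / (e i : ℝ)) < 2) : ∃ i, e i = 1 := by
  by_contra hne
  push Not at hne
  have h1 := Arith_half e univ (fun i _ => by have := he i; have := hne i; omega)
  have h2 : (4 : ℝ) ≤ ((univ : Finset (Fin N)).card : ℝ) := by
    rw [Finset.card_univ, Fintype.card_fin]; exact_mod_cast hN
  linarith

end Pool.Agent.H6.VA
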