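import Pool.Agent.H82.CO.Big

set_option autoImplicit false

/-!
# The imaginary part outside a normal subgroup

As `sum_indIm_large` of `H82/CO/Big.lean`, with a cut off at `T`, and only for `t ∉ K`. For `t ∉ K`
only the `k` with `c ^ k ∉ K` contribute to `indIm c t`; split `fIm c = φ₁ + φ₂`,
`φ₁ = gs (ah T m) c` restricted to `h ∉ K`, `φ₂ = gs (at' T m) c`. `φ₁ h ≠ 0` forces `h = c ^ k ∉ K`
with `min k (m - k) ≤ T`, so `h` has at least `L` conjugates (`hK`; for `m - k ≤ T` use the inverse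
`c ^ (m - k)`, which is not in `K` either and has the same centralizer): `sum_cj1_sq_le`, `sum_ah`.
`φ₂`: `sum_cj1_sq`, `sum_gs_sq`, `sum_at`. Finally Cauchy-Schwarz over `i`.
-/

namespace Pool.Agent.H6.VA

open Finset Pool.Agent.H82.CO

variable {G : Type} [Group G] [Fintype G] {N : ℕ}

omit [Fintype G] in
private theorem Err_centralizer_inv (h : G) :
    Subgroup.centralizer ({h⁻¹} : Set G) = Subgroup.centralizer ({h} : Set G) := by
  ext x
  rw [Subgroup.mem_centralizer_iff, Subgroup.mem_centralizer_iff]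
  simp only [Set.mem_singleton_iff, forall_eq]
  constructor
  · intro h1
    have h2 : Commute h⁻¹ x := h1
    exact Commute.inv_left_iff.1 h2
  · intro h1
    have h2 : Commute h x := h1
    exact Commute.inv_left_iff.2 h2

open Classical in
/-- The head, outside `K`. -/
private noncomputable def Err_head (K : Subgroup G) (T : ℕ) (c h : G) : ℝ :=
  if h ∈ K then 0 else gs (ah T (orderOf c)) c h

omit [Fintype G] in
private theorem Err_head_large (K : Subgroup G) {c : G} {L : ℝ} {T : ℕ}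
    (hK : ∀ k, 1 ≤ k → k ≤ T → c ^ k ∉ K →
      L ≤ ((Subgroup.centralizer ({c ^ k} : Set G)).index : ℝ)) (h : G)
    (hh : Err_head K T c h ≠ 0) : L ≤ ((Subgroup.centralizer ({h} : Set G)).index : ℝ) := by
  rw [Err_head] at hh
  split_ifs at hh with hhK
  · exact absurd rfl hh
  · obtain ⟨k, hk, hak, rfl⟩ := gs_ne_zero hh
    have hk0 : k ≠ 0 := by
      rintro rfl
      exact hhK (by rw [pow_zero]; exact K.one_mem)
    have hmin : min k (orderOf c - k) ≤ T := by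
      by_contra hlt
      rw [ah, if_neg hlt] at hak
      exact hak rfl
    rcases le_total k (orderOf c - k) with h1 | h1
    · rw [min_eq_left h1] at hmin
      exact hK k (by omega) hmin hhK
    · rw [min_eq_right h1] at hmin
      have h2 : c ^ (orderOf c - k) = (c ^ k)⁻¹ := by
        rw [eq_inv_iff_mul_eq_one, ← pow_add, Nat.sub_add_cancel hk.le, pow_orderOf_eq_one]
      have h3 := hK (orderOf c - k) (by omega) hmin (by
        rw [h2]
        exact fun h4 => hhK (by simpa using K.inv_mem h4))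
      rwa [h2, Err_centralizer_inv] at h3

open Classical in
private theorem Err_sum_head (K : Subgroup G) (T : ℕ) (c : G) :
    ∑ h : G, |Err_head K T c h| ≤
      orderOf c / 2 * ∑ j ∈ range T, 1 / ((j + 1 : ℕ) : ℝ) := by
  refine (sum_le_sum fun h _ => ?_).trans ((sum_abs_gs (ah T (orderOf c)) c).trans
    (sum_ah (orderOf_pos c)))
  rw [Err_head]
  split_ifs
  · rw [abs_zero]
    exact abs_nonneg _
  · exact le_rfl

open Classical in
/-- One induced function. -/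
theorem sum_indIm_out (K : Subgroup G) [K.Normal] {c : G} {L : ℝ} (hL : 0 < L) {T : ℕ} (hT : 0 < T)
    (hK : ∀ k, 1 ≤ k → k ≤ T → c ^ k ∉ K →
      L ≤ ((Subgroup.centralizer ({c ^ k} : Set G)).index : ℝ)) :
    (∑ t : G, if t ∈ K then (0 : ℝ) else indIm c t ^ 2) ≤
      (Nat.card G : ℝ) ^ 2 *
        ((∑ j ∈ range T, 1 / ((j + 1 : ℕ) : ℝ)) ^ 2 / (2 * L) + 1 / (4 * T)) := by
  have hm0 := orderOf_pos c
  have hmp : (0 : ℝ) < orderOf c := by exact_mod_cast hm0
  have hTp : (0 : ℝ) < T := by exact_mod_cast hT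
  have hn : (0 : ℝ) ≤ (Nat.card G : ℝ) ^ 2 := sq_nonneg _
  have h1 : ∀ g : G, (if g ∈ K then (0 : ℝ) else indIm c g ^ 2) ≤ (1 / (orderOf c : ℝ)) ^ 2 *
      (2 * cj1 (Err_head K T c) g ^ 2 + 2 * cj1 (gs (at' T (orderOf c)) c) g ^ 2) := by
    intro g
    split_ifs with hg
    · positivity
    · have h2 : ∀ x : G, fIm c (x⁻¹ * g * x) = Err_head K T c (x⁻¹ * g * x) +
          gs (at' T (orderOf c)) c (x⁻¹ * g * x) := by
        intro x
        have hx : x⁻¹ * g * x ∉ K := by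
          intro hx
          apply hg
          have := ‹K.Normal›.conj_mem _ hx x
          have h3 : x * (x⁻¹ * g * x) * x⁻¹ = g := by group
          rwa [h3] at this
        rw [Err_head, if_neg hx, fIm_eq_gs, ← gs_add]
        simp only [← ah_add]
      rw [indIm, mul_pow]
      refine mul_le_mul_of_nonneg_left ?_ (by positivity)
      simp only [h2]
      rw [sum_add_distrib]
      change (cj1 _ g + cj1 _ g) ^ 2 ≤ _
      nlinarith [sq_nonneg (cj1 (Err_head K T c) g - cj1 (gs (at' T (orderOf c)) c) g)]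
  refine (sum_le_sum fun g _ => h1 g).trans ?_
  rw [← mul_sum, sum_add_distrib, ← mul_sum, ← mul_sum]
  have h3 : ∑ g : G, cj1 (Err_head K T c) g ^ 2 ≤ (Nat.card G : ℝ) ^ 2 / L *
      (orderOf c / 2 * ∑ j ∈ range T, 1 / ((j + 1 : ℕ) : ℝ)) ^ 2 := by
    refine (sum_cj1_sq_le hL (Err_head_large K hK)).trans ?_
    refine mul_le_mul_of_nonneg_left ?_ (by positivity)
    exact pow_le_pow_left₀ (sum_nonneg fun h _ => abs_nonneg _) (Err_sum_head K T c) 2
  have h4 : ∑ g : G, cj1 (gs (at' T (orderOf c)) c) g ^ 2 ≤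
      (Nat.card G : ℝ) ^ 2 * ((orderOf c : ℝ) ^ 2 / (8 * T)) := by
    refine (sum_cj1_sq _).trans (mul_le_mul_of_nonneg_left ?_ hn)
    rw [sum_gs_sq]
    exact sum_at hT hm0
  refine (mul_le_mul_of_nonneg_left (add_le_add (mul_le_mul_of_nonneg_left h3 (by norm_num))
    (mul_le_mul_of_nonneg_left h4 (by norm_num))) (by positivity)).trans (le_of_eq ?_)
  obtain ⟨H, hH⟩ : ∃ H : ℝ, H = ∑ j ∈ range T, 1 / ((j + 1 : ℕ) : ℝ) := ⟨_, rfl⟩
  rw [← hH]
  field_simp
  ring

private theorem Err_harm (n : ℕ) :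
    ∑ j ∈ range n, 1 / ((j + 1 : ℕ) : ℝ) ≤ 1 + Real.log n := by
  have h1 := harmonic_le_one_add_log n
  have h2 : ((harmonic n : ℚ) : ℝ) = ∑ j ∈ range n, 1 / ((j + 1 : ℕ) : ℝ) := by
    rw [harmonic, Rat.cast_sum]
    refine sum_congr rfl fun j _ => ?_
    push_cast
    rw [one_div]
  rwa [h2] at h1

private theorem Err_log : Real.log ((10 ^ 6 : ℕ) : ℝ) ≤ 15 := by
  have h3 : Real.log ((10 ^ 6 : ℕ) : ℝ) ≤ Real.log ((2 : ℝ) ^ 20) :=
    Real.log_le_log (by norm_num) (by norm_num)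
  rw [Real.log_pow] at h3
  have h4 := Real.log_two_lt_d9
  have h5 : ((20 : ℕ) : ℝ) = 20 := by norm_num
  rw [h5] at h3
  linarith

/-- The harmonic sum. -/
theorem harm_le : ∑ j ∈ range (10 ^ 6), 1 / ((j + 1 : ℕ) : ℝ) ≤ 16 :=
  (Err_harm (10 ^ 6)).trans (by linarith [Err_log])

open Classical in
/-- The error term. -/
theorem sum_im_out (K : Subgroup G) [K.Normal] (s : Fin N → G) (hN : N ≤ 5)
    (hK : ∀ i k, 1 ≤ k → k ≤ 10 ^ 6 → s i ^ k ∉ K →
      (10 : ℝ) ^ 9 ≤ ((Subgroup.centralizer ({s i ^ k} : Set G)).index : ℝ)) :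
    (∑ t : G, if t ∈ K then (0 : ℝ) else (chi s t).im ^ 2) ≤
      (Nat.card G : ℝ) ^ 2 / 100000 := by
  have hNr : (N : ℝ) ≤ 5 := by exact_mod_cast hN
  have hN0 : (0 : ℝ) ≤ N := Nat.cast_nonneg _
  have hn : (0 : ℝ) ≤ (Nat.card G : ℝ) ^ 2 := sq_nonneg _
  have h1 : ∀ t : G, (if t ∈ K then (0 : ℝ) else (chi s t).im ^ 2) ≤
      N * ∑ i, (if t ∈ K then (0 : ℝ) else indIm (s i) t ^ 2) := by
    intro t
    split_ifs with ht
    · simp
    · rw [chi_im]
      have := sq_sum_le_card_mul_sum_sq (s := (univ : Finset (Fin N)))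
        (f := fun i => indIm (s i) t)
      rwa [card_univ, Fintype.card_fin] at this
  refine (sum_le_sum fun t _ => h1 t).trans ?_
  rw [← mul_sum, sum_comm]
  have h2 : ∀ i, (∑ t : G, if t ∈ K then (0 : ℝ) else indIm (s i) t ^ 2) ≤
      (Nat.card G : ℝ) ^ 2 * (378 / 10 ^ 9) := by
    intro i
    refine (sum_indIm_out K (by norm_num : (0 : ℝ) < 10 ^ 9) (by norm_num : 0 < 10 ^ 6)
      (hK i)).trans (mul_le_mul_of_nonneg_left ?_ hn)
    have h3 : (∑ j ∈ range (10 ^ 6), 1 / ((j + 1 : ℕ) : ℝ)) ^ 2 ≤ 16 ^ 2 :=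
      pow_le_pow_left₀ (sum_nonneg fun j _ => by positivity) harm_le 2
    have h4 : (∑ j ∈ range (10 ^ 6), 1 / ((j + 1 : ℕ) : ℝ)) ^ 2 / (2 * 10 ^ 9) ≤
        16 ^ 2 / (2 * 10 ^ 9) := div_le_div_of_nonneg_right h3 (by norm_num)
    have h5 : (1 : ℝ) / (4 * ((10 ^ 6 : ℕ) : ℝ)) = 250 / 10 ^ 9 := by norm_num
    rw [h5]
    refine (add_le_add_left h4 _).trans (le_of_eq ?_)
    norm_num
  have h3 : ∑ i, (∑ t : G, if t ∈ K then (0 : ℝ) else indIm (s i) t ^ 2) ≤
      N * ((Nat.card G : ℝ) ^ 2 * (378 / 10 ^ 9)) := by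
    refine (sum_le_sum fun i _ => h2 i).trans (le_of_eq ?_)
    rw [sum_const, card_univ, Fintype.card_fin, nsmul_eq_mul]
  refine (mul_le_mul_of_nonneg_left h3 hN0).trans ?_
  have h4 : (N : ℝ) * N ≤ 25 := by nlinarith
  have h5 : (0 : ℝ) ≤ (Nat.card G : ℝ) ^ 2 * (378 / 10 ^ 9) := by positivity
  calc (N : ℝ) * (N * ((Nat.card G : ℝ) ^ 2 * (378 / 10 ^ 9))) =
        N * N * ((Nat.card G : ℝ) ^ 2 * (378 / 10 ^ 9)) := by ring
    _ ≤ 25 * ((Nat.card G : ℝ) ^ 2 * (378 / 10 ^ 9)) := mul_le_mul_of_nonneg_right h4 h5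
    _ ≤ (Nat.card G : ℝ) ^ 2 / 100000 := by linarith

end Pool.Agent.H6.VA
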