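import Pool.Agent.H82.CO.Big

set_option autoImplicit false

/-!
# The Frobenius-Schur term and the commuting probability

`∑_g Re chi (g ^ 2) = ∑_g rt g * Re chi g` (`sum_comp_sq`), `Re chi 1 = genus ≥ 0`,
`Re chi g = 1 - F / 2 ≥ - F / 2`, `F = ∑ indF (s i)` (`chi_re`). So the sum is
`≥ - (1/2) ∑ rt g F g ≥ - (1/4) (A ∑ rt ^ 2 + (1/A) ∑ F ^ 2)`, `A = 350000`.
`∑ rt ^ 2 = Qs G = ∑ cj x ≤ ∑ |C(x)|` (`Qs_eq_cj`: `a⁻¹ x a = x⁻¹` holds for at most `|C(x)|`
elements `a`). `0 ≤ indF c g ≤ n / 2` (for every `x` at most one `k`; `m ≥ 2`), `∑ indF ≤ n`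
(`sum_indF`), so `∑ indF ^ 2 ≤ n ^ 2 / 2` and `∑ F ^ 2 ≤ N ^ 2 n ^ 2 / 2`.
-/

namespace Pool.Agent.H6.VA

open Finset Pool.Agent.H82.CO

variable {G : Type} [Group G] [Fintype G] {N : ℕ}

/-- The number of commuting pairs. -/
noncomputable def cc (G : Type) [Group G] : ℕ := Nat.card {p : G × G // p.1 * p.2 = p.2 * p.1}

private theorem fsb_cj_le (x : G) : cj x ≤ ∑ a : G, (open Classical in if x * a = a * x then (1 : ℝ) else 0) := by
  classical
  rw [cj, sum_boole, sum_boole]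
  norm_cast
  by_cases he : ∃ a₀ : G, a₀⁻¹ * x * a₀ = x⁻¹
  · obtain ⟨a₀, ha₀⟩ := he
    refine card_le_card_of_injOn (fun a => a * a₀⁻¹) ?_ ?_
    · intro a ha
      simp only [coe_filter, mem_univ, true_and, Set.mem_ofPred_eq] at ha ⊢
      have h1 : x * a = a * x⁻¹ := by rw [← ha]; group
      have h2 : a₀⁻¹ * x = x⁻¹ * a₀⁻¹ := by rw [← ha₀]; group
      rw [← mul_assoc, h1, mul_assoc, mul_assoc, h2]
    · intro a _ b _ hab
      exact mul_right_cancel hab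
  · have h0 : (univ.filter fun a : G => a⁻¹ * x * a = x⁻¹) = ∅ := by
      rw [filter_eq_empty_iff]
      intro a _ ha
      exact he ⟨a, ha⟩
    rw [h0, card_empty]
    exact Nat.zero_le _

private theorem fsb_cc : (cc G : ℝ) = ∑ x : G, ∑ a : G, (open Classical in if x * a = a * x then (1 : ℝ) else 0) := by
  classical
  rw [cc, Nat.card_eq_fintype_card, Fintype.card_subtype]
  have h1 : ((univ.filter fun p : G × G => p.1 * p.2 = p.2 * p.1).card : ℝ) =
      ∑ p : G × G, if p.1 * p.2 = p.2 * p.1 then (1 : ℝ) else 0 := by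
    rw [sum_boole]
  rw [h1, Fintype.sum_prod_type]

theorem Qs_le_cc : Qs G ≤ (cc G : ℝ) := by
  rw [Qs_eq_cj, fsb_cc]
  exact sum_le_sum fun x _ => fsb_cj_le x

private theorem fsb_indF_nonneg (c g : G) : 0 ≤ indF c g := by
  rw [indF]
  refine mul_nonneg (by positivity) (sum_nonneg fun x _ => ?_)
  rcases fP_cases c (x⁻¹ * g * x) with h | h
  · rw [h.1]
  · rw [h]
    exact zero_le_one

private theorem fsb_indF_le {c : G} (hc : c ≠ 1) (g : G) : indF c g ≤ (Nat.card G : ℝ) / 2 := by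
  have hm : 2 ≤ orderOf c := by
    have h1 : orderOf c ≠ 1 := fun h => hc (orderOf_eq_one_iff.1 h)
    have h2 := orderOf_pos c
    omega
  have hm' : (2 : ℝ) ≤ orderOf c := by exact_mod_cast hm
  have h1 : ∑ x : G, fP c (x⁻¹ * g * x) ≤ (Nat.card G : ℝ) := by
    calc ∑ x : G, fP c (x⁻¹ * g * x) ≤ ∑ _x : G, (1 : ℝ) := by
          refine sum_le_sum fun x _ => ?_
          rcases fP_cases c (x⁻¹ * g * x) with h | h
          · rw [h.1]
            exact zero_le_one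
          · rw [h]
      _ = _ := by rw [sum_const, card_univ, nsmul_eq_mul, mul_one, ← Nat.card_eq_fintype_card]
  have h0 : (0 : ℝ) ≤ Nat.card G := Nat.cast_nonneg _
  rw [indF, one_div, inv_mul_le_iff₀ (by linarith)]
  nlinarith

theorem sum_indF_sq {c : G} (hc : c ≠ 1) : ∑ g : G, indF c g ^ 2 ≤ (Nat.card G : ℝ) ^ 2 / 2 := by
  have h0 : (0 : ℝ) ≤ Nat.card G := Nat.cast_nonneg _
  have h1 : ∀ g : G, indF c g ^ 2 ≤ (Nat.card G : ℝ) / 2 * indF c g := by
    intro g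
    rw [sq]
    exact mul_le_mul_of_nonneg_right (fsb_indF_le hc g) (fsb_indF_nonneg c g)
  refine (sum_le_sum fun g _ => h1 g).trans ?_
  rw [← mul_sum, sum_indF]
  have h2 : 0 ≤ 1 / (orderOf c : ℝ) := by positivity
  have h3 : (Nat.card G : ℝ) * (1 - 1 / (orderOf c : ℝ)) ≤ Nat.card G := by nlinarith
  have h4 := mul_le_mul_of_nonneg_left h3 (by positivity : (0 : ℝ) ≤ (Nat.card G : ℝ) / 2)
  refine h4.trans (le_of_eq ?_)
  ring

theorem fs_ge (s : Fin N → G) (hs : ∀ i, s i ≠ 1) (hN : N ≤ 5) (hg : 0 ≤ genus s)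
    (hcc : (cc G : ℝ) ≤ (Nat.card G : ℝ) ^ 2 / 10 ^ 10) :
    -((Nat.card G : ℝ) ^ 2 / 50000) ≤ ∑ g : G, (chi s (g ^ 2)).re := by
  rw [sum_comp_sq (fun g => (chi s g).re)]
  have hrt : ∀ g : G, 0 ≤ rt g := by
    intro g
    rw [rt]
    exact sum_nonneg fun u _ => by split_ifs <;> norm_num
  have h1 : ∀ g : G, -(1 / 4 * (350000 * rt g ^ 2 + (∑ i, indF (s i) g) ^ 2 / 350000)) ≤
      rt g * (chi s g).re := by
    intro g
    have h2 : -((∑ i, indF (s i) g) / 2) ≤ (chi s g).re := by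
      by_cases hg1 : g = 1
      · subst hg1
        rw [chi_one, Complex.ofReal_re]
        have h3 : ∑ i, indF (s i) (1 : G) = 0 := sum_eq_zero fun i _ => indF_one _
        rw [h3]
        linarith
      · rw [chi_re s hg1]
        linarith
    have h4 := mul_le_mul_of_nonneg_left h2 (hrt g)
    have h5 := sq_nonneg (350000 * rt g - ∑ i, indF (s i) g)
    have h6 : rt g * (∑ i, indF (s i) g) ≤
        (350000 * rt g ^ 2 + (∑ i, indF (s i) g) ^ 2 / 350000) / 2 := by nlinarith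
    nlinarith
  refine le_trans ?_ (sum_le_sum fun g _ => h1 g)
  rw [sum_neg_distrib, ← mul_sum, sum_add_distrib, ← mul_sum, ← sum_div, neg_le_neg_iff]
  have h7 : ∑ g : G, rt g ^ 2 ≤ (Nat.card G : ℝ) ^ 2 / 10 ^ 10 := Qs_le_cc.trans hcc
  have hN' : (N : ℝ) ≤ 5 := by exact_mod_cast hN
  have hN0 : (0 : ℝ) ≤ N := Nat.cast_nonneg _
  have h8 : ∑ g : G, (∑ i, indF (s i) g) ^ 2 ≤ 25 / 2 * (Nat.card G : ℝ) ^ 2 := by
    have h9 : ∀ g : G, (∑ i, indF (s i) g) ^ 2 ≤ (N : ℝ) * ∑ i, indF (s i) g ^ 2 := by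
      intro g
      have h10 := sq_sum_le_card_mul_sum_sq (s := (univ : Finset (Fin N))) (f := fun i => indF (s i) g)
      rwa [card_univ, Fintype.card_fin] at h10
    refine (sum_le_sum fun g _ => h9 g).trans ?_
    rw [← mul_sum, sum_comm]
    have h11 : ∑ i, ∑ g : G, indF (s i) g ^ 2 ≤ N * ((Nat.card G : ℝ) ^ 2 / 2) := by
      refine (sum_le_sum fun i _ => sum_indF_sq (hs i)).trans (le_of_eq ?_)
      rw [sum_const, card_univ, Fintype.card_fin, nsmul_eq_mul]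
    have h12 := mul_le_mul_of_nonneg_left h11 hN0
    refine h12.trans ?_
    have h13 : (N : ℝ) * N ≤ 25 := by nlinarith
    have h14 : (0 : ℝ) ≤ (Nat.card G : ℝ) ^ 2 / 2 := by positivity
    have h15 := mul_le_mul_of_nonneg_right h13 h14
    linarith
  have h16 : (0 : ℝ) ≤ (Nat.card G : ℝ) ^ 2 := by positivity
  linarith

end Pool.Agent.H6.VA
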