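import Pool.Agent.H6.VA.NeuB

set_option autoImplicit false

/-!
# P. Neumann's theorem for groups with few generators

`neumann_set` for `X = {x : the centralizer has index at most 2 q}`, `D = r = 2 q`: the number of
commuting pairs is the sum of the `|C(x)|`, at most `|X| n + n (n / (2 q))`.
-/


namespace Pool.Agent.H6.VA

open Pointwise

private theorem Neu_index_conj {G : Type} [Group G] (x g : G) :
    (Subgroup.centralizer ({g * x * g⁻¹} : Set G)).index = (Subgroup.centralizer ({x} : Set G)).index := by
  have h : Subgroup.centralizer ({g * x * g⁻¹} : Set G) =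
      (Subgroup.centralizer ({x} : Set G)).comap (MulAut.conj g⁻¹).toMonoidHom := by
    ext y
    rw [Subgroup.mem_comap, Subgroup.mem_centralizer_singleton_iff, Subgroup.mem_centralizer_singleton_iff,
      MulEquiv.coe_toMonoidHom, MulAut.conj_apply, inv_inv]
    have h1 : g⁻¹ * y * g * x = g⁻¹ * (y * (g * x * g⁻¹)) * g := by group
    have h2 : x * (g⁻¹ * y * g) = g⁻¹ * (g * x * g⁻¹ * y) * g := by group
    rw [h1, h2]
    constructor
    · intro h3
      rw [h3]
    · intro h3
      exact mul_left_cancel (mul_right_cancel h3)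
  rw [h]
  exact Subgroup.index_comap_of_surjective _ (MulAut.conj g⁻¹).surjective

private theorem Neu_index_inv {G : Type} [Group G] (x : G) :
    Subgroup.centralizer ({x⁻¹} : Set G) = Subgroup.centralizer ({x} : Set G) := by
  ext y
  rw [Subgroup.mem_centralizer_singleton_iff, Subgroup.mem_centralizer_singleton_iff]
  exact Commute.inv_right_iff

private theorem Neu_one {G : Type} [Group G] : Subgroup.centralizer ({1} : Set G) = ⊤ := by
  rw [eq_top_iff]
  intro y _
  rw [Subgroup.mem_centralizer_singleton_iff, mul_one, one_mul]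

private theorem Neu_cc (G : Type) [Group G] [Fintype G] :
    Nat.card {p : G × G // p.1 * p.2 = p.2 * p.1} = ∑ x : G, Nat.card (Subgroup.centralizer ({x} : Set G)) := by
  have e : {p : G × G // p.1 * p.2 = p.2 * p.1} ≃ Σ x : G, Subgroup.centralizer ({x} : Set G) :=
    { toFun := fun p => ⟨p.1.2, ⟨p.1.1, Subgroup.mem_centralizer_singleton_iff.2 p.2⟩⟩
      invFun := fun s => ⟨((s.2 : G), s.1), Subgroup.mem_centralizer_singleton_iff.1 s.2.2⟩
      left_inv := fun _ => rfl
      right_inv := fun _ => rfl }
  rw [Nat.card_congr e, Nat.card_sigma]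

/-- Groups with many commuting pairs and few generators. -/
theorem neumann (N : ℕ) (q : ℕ) (hq : 0 < q) : ∃ B : ℕ, ∀ (G : Type) [Group G] [Fintype G],
    (∃ S : Finset G, S.card ≤ N ∧ Subgroup.closure (S : Set G) = ⊤) →
    Nat.card G ^ 2 ≤ q * Nat.card {p : G × G // p.1 * p.2 = p.2 * p.1} → AbN G B := by
  classical
  refine ⟨2 * q * (2 * q) ^ (2 * q * N * (3 * (2 * q) + 3)), ?_⟩
  intro G _ _ hS hcard
  have hmem : ∀ x : G, x ∈ Finset.univ.filter (fun x : G => (Subgroup.centralizer ({x} : Set G)).index ≤ 2 * q) ↔
      (Subgroup.centralizer ({x} : Set G)).index ≤ 2 * q := by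
    intro x
    rw [Finset.mem_filter]
    exact ⟨fun h => h.2, fun h => ⟨Finset.mem_univ x, h⟩⟩
  refine neumann_set (Finset.univ.filter (fun x : G => (Subgroup.centralizer ({x} : Set G)).index ≤ 2 * q))
    (2 * q) (2 * q) N ?_ ?_ ?_ (fun x hx => (hmem x).1 hx) ?_ hS
  · rw [hmem, Neu_one, Subgroup.index_top]
    omega
  · intro x hx
    rw [hmem] at hx ⊢
    rwa [Neu_index_inv]
  · intro x hx g
    rw [hmem] at hx ⊢
    rwa [Neu_index_conj]
  · set X : Finset G := Finset.univ.filter (fun x : G => (Subgroup.centralizer ({x} : Set G)).index ≤ 2 * q) with hX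
    have hn : Nat.card G = Fintype.card G := Nat.card_eq_fintype_card
    have hn0 : 0 < Fintype.card G := Fintype.card_pos
    have h1 : ∀ x : G, 2 * q * Nat.card (Subgroup.centralizer ({x} : Set G)) ≤
        (if x ∈ X then 2 * q * Fintype.card G else 0) + Fintype.card G := by
      intro x
      have h2 := Subgroup.index_mul_card (Subgroup.centralizer ({x} : Set G))
      rw [hn] at h2
      by_cases hx : x ∈ X
      · rw [if_pos hx]
        have h3 : Nat.card (Subgroup.centralizer ({x} : Set G)) ≤ Fintype.card G := by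
          rw [← hn]
          exact Subgroup.card_le_card_group _
        exact (Nat.mul_le_mul_left _ h3).trans (Nat.le_add_right _ _)
      · rw [if_neg hx, zero_add, ← h2]
        have h4 : ¬ (Subgroup.centralizer ({x} : Set G)).index ≤ 2 * q := fun h => hx ((hmem x).2 h)
        exact Nat.mul_le_mul_right _ (le_of_lt (not_le.1 h4))
    have h5 : 2 * q * Nat.card {p : G × G // p.1 * p.2 = p.2 * p.1} ≤
        X.card * (2 * q * Fintype.card G) + Fintype.card G * Fintype.card G := by
      rw [Neu_cc, Finset.mul_sum]
      refine (Finset.sum_le_sum fun x _ => h1 x).trans (le_of_eq ?_)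
      rw [Finset.sum_add_distrib, Finset.sum_const, Finset.card_univ, smul_eq_mul, ← Finset.sum_filter, Finset.sum_const,
        smul_eq_mul]
      have h6 : Finset.univ.filter (fun x : G => x ∈ X) = X := by
        ext x
        rw [Finset.mem_filter]
        exact ⟨fun h => h.2, fun h => ⟨Finset.mem_univ x, h⟩⟩
      rw [h6]
    rw [hn] at hcard
    have h7 : Fintype.card G * Fintype.card G ≤ Fintype.card G * (2 * q * X.card) := by
      have h8 : 2 * Fintype.card G ^ 2 ≤ 2 * q * Nat.card {p : G × G // p.1 * p.2 = p.2 * p.1} := by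
        calc 2 * Fintype.card G ^ 2 ≤ 2 * (q * Nat.card {p : G × G // p.1 * p.2 = p.2 * p.1}) := Nat.mul_le_mul_left _ hcard
          _ = _ := by ring
      have h9 := h8.trans h5
      have h10 : X.card * (2 * q * Fintype.card G) = Fintype.card G * (2 * q * X.card) := by ring
      rw [h10] at h9
      nlinarith
    exact Nat.le_of_mul_le_mul_left h7 hn0

end Pool.Agent.H6.VA
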