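import Pool.Agent.H6.VA.FiveB
import Pool.Agent.H6.VA.Neu

set_option autoImplicit false

/-!
# Four or five branch points
-/

namespace Pool.Agent.H6.VA

open Finset Pool.Agent.H82.CO

variable {G : Type} [Group G] [Fintype G] {N : ℕ}

private theorem five_mono {G : Type} [Group G] {B C : ℕ} (h : AbN G B) (hBC : B ≤ C) : AbN G C := by
  obtain ⟨A, h1, h2, h3, h4⟩ := h
  exact ⟨A, h1, h2, h3.trans hBC, h4⟩

open Classical in
/-- The powers `s i ^ k`, `k ≤ T`, with at most `L` conjugates. -/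
private noncomputable def five_Y (s : Fin N → G) (T L : ℕ) : Finset G :=
  (univ.biUnion fun i => (Finset.Icc 1 T).image fun k => s i ^ k).filter fun y =>
    (Subgroup.centralizer ({y} : Set G)).index ≤ L

omit [Fintype G] in
private theorem five_card (s : Fin N → G) (hN5 : N ≤ 5) (T L : ℕ) : (five_Y s T L).card ≤ 5 * T := by
  classical
  unfold five_Y
  refine (card_filter_le _ _).trans ?_
  refine (card_biUnion_le_card_mul _ _ T fun i _ => ?_).trans ?_
  · refine card_image_le.trans ?_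
    rw [Nat.card_Icc, Nat.add_sub_cancel]
  · rw [card_univ, Fintype.card_fin]
    exact Nat.mul_le_mul_right _ hN5

omit [Fintype G] in
private theorem five_idx (s : Fin N → G) (T L : ℕ) : ∀ y ∈ five_Y s T L,
    (Subgroup.centralizer ({y} : Set G)).index ≤ L := by
  classical
  intro y hy
  unfold five_Y at hy
  exact (mem_filter.1 hy).2

omit [Fintype G] in
private theorem five_mem (s : Fin N → G) (T L : ℕ) (i : Fin N) (k : ℕ) (h1 : 1 ≤ k) (hk : k ≤ T)
    (h : (Subgroup.centralizer ({s i ^ k} : Set G)).index ≤ L) : s i ^ k ∈ five_Y s T L := by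
  classical
  unfold five_Y
  refine mem_filter.2 ⟨mem_biUnion.2 ⟨i, mem_univ i, mem_image.2 ⟨k, ?_, rfl⟩⟩, h⟩
  exact Finset.mem_Icc.2 ⟨h1, hk⟩

/-- `N = 4, 5`: `K` = normal closure of the `s i ^ k`, `1 ≤ k ≤ 10 ^ 6`, with fewer than `10 ^ 9`
conjugates. Either `quad_ge`, or `cc` is large (`neumann`), or `K` has index `< 1000` (`struct`). -/
theorem five : ∃ B : ℕ, ∀ (G : Type) [Group G] [Fintype G] (N : ℕ) (s : Fin N → G), 4 ≤ N → N ≤ 5 →
    (∀ i, s i ≠ 1) → Subgroup.closure (Set.range s) = ⊤ → (List.ofFn s).prod = 1 → 1 < genus s →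
    AbN G B ∨ (Nat.card G : ℝ) / 20000 ≤ (quadInv s).re := by
  classical
  obtain ⟨B₁, hB₁⟩ := neumann 5 (10 ^ 10) (by positivity)
  obtain ⟨F, hF⟩ : ∃ F : ℕ, ∀ k ≤ 5 * 10 ^ 6 * 10 ^ 9, k.factorial ≤ F :=
    ⟨_, fun k hk => Nat.factorial_le hk⟩
  refine ⟨max B₁ (1000 * F), ?_⟩
  intro G _ _ N s hN hN5 hs hg hp hgen
  by_cases hcc : (cc G : ℝ) ≤ (Nat.card G : ℝ) ^ 2 / 10 ^ 10
  · set Y := five_Y s (10 ^ 6) (10 ^ 9) with hY
    by_cases hK : nuK (Subgroup.normalClosure (Y : Set G)) s < 2 →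
        1000 ≤ (Subgroup.normalClosure (Y : Set G)).index
    · right
      refine quad_ge (Subgroup.normalClosure (Y : Set G)) s hN hN5 hs hg hp hgen hK ?_ hcc
      intro i k h1 hk hnot
      by_contra hlt
      apply hnot
      apply Subgroup.subset_normalClosure
      refine mem_coe.2 (five_mem s (10 ^ 6) (10 ^ 9) i k h1 hk ?_)
      have h2 : ((Subgroup.centralizer ({s i ^ k} : Set G)).index : ℝ) < ((10 ^ 9 : ℕ) : ℝ) := by
        rw [Nat.cast_pow, Nat.cast_ofNat]
        exact not_le.1 hlt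
      exact le_of_lt (by exact_mod_cast h2)
    · left
      have hK2 : (Subgroup.normalClosure (Y : Set G)).index ≤ 1000 := by
        by_contra h
        exact hK fun _ => by omega
      refine five_mono (struct Y (10 ^ 9) (five_idx s _ _)) (le_trans ?_ (le_max_right _ _))
      refine Nat.mul_le_mul hK2 (hF _ ?_)
      exact Nat.mul_le_mul_right _ (five_card s hN5 _ _)
  · left
    refine five_mono (hB₁ G ⟨univ.image s, ?_, ?_⟩ ?_) (le_max_left _ _)
    · refine card_image_le.trans ?_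
      rw [card_univ, Fintype.card_fin]
      exact hN5
    · rw [coe_image, coe_univ, Set.image_univ]
      exact hg
    · have h1 := not_le.1 hcc
      rw [div_lt_iff₀ (by positivity)] at h1
      have h2 : ((Nat.card G ^ 2 : ℕ) : ℝ) < ((10 ^ 10 * cc G : ℕ) : ℝ) := by
        push_cast
        linarith
      exact le_of_lt (by exact_mod_cast h2)

end Pool.Agent.H6.VA
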