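import Mathlib

set_option autoImplicit false

/-!
# Riemann-Hurwitz (Scott's lemma for the regular representation)

`Q` finite, generated by `q_1, …, q_N` with product `1`. `U = (Q → ℚ)` (or `Q →₀ ℚ`) with the
translation action `T_i` of `q_i`, `M_i = range (1 - T_i)`, of dimension `|Q| - |Q| / ord q_i`.
`β : U → ∏ M_i`, `v ↦ ((1 - T_i) v)_i` has kernel the constants (dimension `1`), and
`δ : ∏ M_i → U`, `(w_i) ↦ w_1 + T_1 w_2 + T_1 T_2 w_3 + …` has range `∑ M_i` = the functions with
sum `0` (codimension `1`), `δ β v = v - T_1 ⋯ T_N v = 0`. So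
`∑ (|Q| - |Q| / ord q_i) ≥ 2 (|Q| - 1)`.
Another proof (graph): a transitive permutation group generated by `q_1, …, q_N` with product `1`
satisfies this inequality (Ree), by induction on the number of cycles.
-/

namespace Pool.Agent.H6.VA

open Finset

private noncomputable def ReeT {Q : Type} [Group Q] (g : Q) : (Q → ℚ) →ₗ[ℚ] (Q → ℚ) :=
  LinearMap.funLeft ℚ ℚ (fun x => x * g)

private theorem ReeT_apply {Q : Type} [Group Q] (g : Q) (f : Q → ℚ) (x : Q) :
    ReeT g f x = f (x * g) := rfl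

private theorem ReeT_one {Q : Type} [Group Q] : ReeT (1 : Q) = LinearMap.id := by
  ext f x
  simp [ReeT, LinearMap.funLeft]

private theorem ReeT_mul {Q : Type} [Group Q] (g h : Q) (f : Q → ℚ) :
    ReeT (g * h) f = ReeT g (ReeT h f) := by
  funext x
  rw [ReeT_apply, ReeT_apply, ReeT_apply, mul_assoc]

private noncomputable def ReeD {Q : Type} [Group Q] (g : Q) : (Q → ℚ) →ₗ[ℚ] (Q → ℚ) :=
  LinearMap.id - ReeT g

private theorem ReeD_apply {Q : Type} [Group Q] (g : Q) (f : Q → ℚ) :
    ReeD g f = f - ReeT g f := rfl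

/-- dimension of the range of `1 - T_g` -/
private theorem ReeD_rank {Q : Type} [Group Q] [Fintype Q] (g : Q) :
    Module.finrank ℚ (LinearMap.range (ReeD g)) + Nat.card (Q ⧸ Subgroup.zpowers g) ≤ Nat.card Q := by
  classical
  have h1 := LinearMap.finrank_range_add_finrank_ker (ReeD g)
  rw [Module.finrank_fintype_fun_eq_card, ← Nat.card_eq_fintype_card] at h1
  have h2 : LinearMap.range (LinearMap.funLeft ℚ ℚ (QuotientGroup.mk : Q → Q ⧸ Subgroup.zpowers g)) ≤
      LinearMap.ker (ReeD g) := by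
    rintro _ ⟨f, rfl⟩
    rw [LinearMap.mem_ker, ReeD_apply, sub_eq_zero]
    funext x
    rw [ReeT_apply, LinearMap.funLeft_apply, LinearMap.funLeft_apply]
    congr 1
    rw [QuotientGroup.eq]
    rw [inv_mul_cancel_left]
    exact Subgroup.mem_zpowers g
  have h3 := Submodule.finrank_mono h2
  rw [LinearMap.finrank_range_of_inj (LinearMap.funLeft_injective_of_surjective ℚ ℚ _
    QuotientGroup.mk_surjective)] at h3
  rw [Module.finrank_fintype_fun_eq_card, ← Nat.card_eq_fintype_card] at h3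
  omega

private theorem Ree_ker {Q : Type} [Group Q] {N : ℕ} (q : Fin N → Q)
    (hg : Subgroup.closure (Set.range q) = ⊤) (v : Q → ℚ) (hv : ∀ i, ReeD (q i) v = 0) :
    ∀ g : Q, ReeT g v = v := by
  have h1 : ∀ g ∈ Subgroup.closure (Set.range q), ReeT g v = v := by
    intro g hg'
    induction hg' using Subgroup.closure_induction with
    | mem x hx =>
      obtain ⟨i, rfl⟩ := hx
      have := hv i
      rw [ReeD_apply, sub_eq_zero] at this
      exact this.symm
    | one => rw [ReeT_one]; rfl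
    | mul x y _ _ hx hy => rw [ReeT_mul, hy, hx]
    | inv x _ hx =>
      have h2 : ReeT x⁻¹ (ReeT x v) = v := by
        rw [← ReeT_mul, inv_mul_cancel, ReeT_one]; rfl
      rw [hx] at h2
      exact h2
  intro g
  exact h1 g (by rw [hg]; exact Subgroup.mem_top g)

private theorem Ree_range {Q : Type} [Group Q] {N : ℕ} (q : Fin N → Q)
    (hg : Subgroup.closure (Set.range q) = ⊤) (R : Submodule ℚ (Q → ℚ))
    (hR : ∀ i v, ReeD (q i) v ∈ R) : ∀ (g : Q) (v : Q → ℚ), ReeD g v ∈ R := by
  have h1 : ∀ g ∈ Subgroup.closure (Set.range q), ∀ v, ReeD g v ∈ R := by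
    intro g hg'
    induction hg' using Subgroup.closure_induction with
    | mem x hx =>
      obtain ⟨i, rfl⟩ := hx
      exact hR i
    | one =>
      intro v
      rw [ReeD_apply, ReeT_one]
      simp
    | mul x y _ _ hx hy =>
      intro v
      have h2 : ReeD (x * y) v = ReeD x (ReeT y v) + ReeD y v := by
        rw [ReeD_apply, ReeD_apply, ReeD_apply, ReeT_mul]
        abel
      rw [h2]
      exact R.add_mem (hx _) (hy _)
    | inv x _ hx =>
      intro v
      have h2 : ReeD x⁻¹ v = - ReeD x (ReeT x⁻¹ v) := by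
        rw [ReeD_apply, ReeD_apply, ← ReeT_mul, mul_inv_cancel, ReeT_one]
        simp
      rw [h2]
      exact R.neg_mem (hx _)
  intro g
  exact h1 g (by rw [hg]; exact Subgroup.mem_top g)

private theorem Ree_top {Q : Type} [Group Q] [Fintype Q] (R : Submodule ℚ (Q → ℚ))
    (hR : ∀ (g : Q) (v : Q → ℚ), ReeD g v ∈ R) : Nat.card Q ≤ Module.finrank ℚ R + 1 := by
  classical
  have h1 : R ⊔ Submodule.span ℚ {Pi.single (1 : Q) (1 : ℚ)} = ⊤ := by
    rw [eq_top_iff]
    intro f _
    have h2 : f = ∑ x, f x • (Pi.single x (1 : ℚ) : Q → ℚ) := by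
      funext y
      simp [Finset.sum_apply, Pi.single_apply]
    rw [h2]
    refine Submodule.sum_mem _ fun x _ => Submodule.smul_mem _ _ ?_
    have h3 : (Pi.single x (1 : ℚ) : Q → ℚ) = ReeD x (Pi.single x (1 : ℚ)) + Pi.single (1 : Q) (1 : ℚ) := by
      rw [ReeD_apply]
      have h4 : ReeT x (Pi.single x (1 : ℚ) : Q → ℚ) = Pi.single (1 : Q) (1 : ℚ) := by
        funext y
        rw [ReeT_apply, Pi.single_apply, Pi.single_apply]
        congr 1
        rw [mul_eq_right]
      rw [h4]
      abel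
    rw [h3]
    exact Submodule.add_mem _ (Submodule.mem_sup_left (hR _ _))
      (Submodule.mem_sup_right (Submodule.mem_span_singleton_self _))
  have h5 := Submodule.finrank_add_le_finrank_add_finrank R (Submodule.span ℚ {Pi.single (1 : Q) (1 : ℚ)})
  rw [h1, finrank_top, Module.finrank_fintype_fun_eq_card, ← Nat.card_eq_fintype_card] at h5
  have h6 : Module.finrank ℚ (Submodule.span ℚ {(Pi.single (1 : Q) (1 : ℚ) : Q → ℚ)}) ≤ 1 := by
    have := finrank_span_le_card (R := ℚ) ({(Pi.single (1 : Q) (1 : ℚ) : Q → ℚ)} : Set (Q → ℚ))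
    simpa using this
  omega

/-- the natural number form -/
private theorem Ree_nat {Q : Type} [Group Q] [Fintype Q] {N : ℕ} (q : Fin N → Q)
    (hg : Subgroup.closure (Set.range q) = ⊤) (hp : (List.ofFn q).prod = 1) :
    2 * Nat.card Q ≤ (∑ i, Module.finrank ℚ (LinearMap.range (ReeD (q i)))) + 2 := by
  classical
  set P : ℕ → Q := fun k => ((List.ofFn q).take k).prod with hP
  have hP0 : P 0 = 1 := by simp [hP]
  have hPN : P N = 1 := by
    rw [hP]
    simp only
    rw [List.take_of_length_le (by simp)]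
    exact hp
  have hPs : ∀ i : Fin N, P ((i : ℕ) + 1) = P i * q i := by
    intro i
    have h1 : (i : ℕ) < (List.ofFn q).length := by rw [List.length_ofFn]; exact i.2
    rw [hP]
    simp only
    rw [List.prod_take_succ _ _ h1]
    simp
  -- the maps
  let β : (Q → ℚ) →ₗ[ℚ] ((i : Fin N) → LinearMap.range (ReeD (q i))) :=
    LinearMap.pi fun i => (ReeD (q i)).rangeRestrict
  let δ : ((i : Fin N) → LinearMap.range (ReeD (q i))) →ₗ[ℚ] (Q → ℚ) :=
    ∑ i : Fin N, (ReeT (P (i : ℕ))) ∘ₗ (LinearMap.range (ReeD (q i))).subtype ∘ₗ LinearMap.proj i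
  have hδ : ∀ w, δ w = ∑ i : Fin N, ReeT (P (i : ℕ)) (w i : Q → ℚ) := by
    intro w
    simp only [δ, LinearMap.sum_apply]
    rfl
  let S : ℕ → Finset (Fin N) := fun k => Finset.univ.filter fun i : Fin N => (i : ℕ) < k
  have hmS : ∀ (k : ℕ) (i : Fin N), i ∈ S k ↔ (i : ℕ) < k := by
    intro k i
    simp [S]
  have htel : ∀ (k : ℕ), k ≤ N → ∀ v : Q → ℚ,
      (S k).sum (fun i : Fin N => ReeT (P (i : ℕ)) (ReeD (q i) v)) = v - ReeT (P k) v := by
    intro k
    induction k with
    | zero =>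
      intro _ v
      have h0 : S 0 = ∅ := by
        ext i
        rw [hmS]
        simp
      rw [hP0, ReeT_one, h0]
      simp
    | succ k ih =>
      intro hk v
      have h1 : S (k + 1) = insert (⟨k, by omega⟩ : Fin N) (S k) := by
        ext i
        rw [Finset.mem_insert, hmS, hmS, Fin.ext_iff]
        simp only
        omega
      rw [h1, Finset.sum_insert (by rw [hmS]; simp), ih (by omega) v]
      have h2 := hPs ⟨k, by omega⟩
      simp only at h2
      rw [h2, ReeT_mul, ReeD_apply, map_sub]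
      abel
  have hδβ : ∀ v, δ (β v) = 0 := by
    intro v
    rw [hδ]
    have h1 := htel N le_rfl v
    rw [hPN, ReeT_one] at h1
    have h2 : S N = Finset.univ := by
      ext i
      rw [hmS]
      simp [i.2]
    rw [h2] at h1
    have h3 : (Finset.univ : Finset (Fin N)).sum (fun i : Fin N =>
        ReeT (P (i : ℕ)) ((β v i : LinearMap.range (ReeD (q i))) : Q → ℚ)) =
        (Finset.univ : Finset (Fin N)).sum (fun i : Fin N => ReeT (P (i : ℕ)) (ReeD (q i) v)) :=
      Finset.sum_congr rfl fun i _ => rfl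
    rw [h3, h1]
    simp
  -- the kernel of `β`
  have hkβ : Module.finrank ℚ (LinearMap.ker β) ≤ 1 := by
    have h1 : LinearMap.ker β ≤ Submodule.span ℚ {(fun _ => 1 : Q → ℚ)} := by
      intro v hv
      rw [LinearMap.mem_ker] at hv
      have h2 : ∀ i, ReeD (q i) v = 0 := by
        intro i
        have h3 := congrArg (fun w : (i : Fin N) → LinearMap.range (ReeD (q i)) => (w i : Q → ℚ)) hv
        exact h3
      have h4 := Ree_ker q hg v h2
      rw [Submodule.mem_span_singleton]
      refine ⟨v 1, ?_⟩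
      funext x
      have h5 := congrFun (h4 x) 1
      rw [ReeT_apply, one_mul] at h5
      simp [h5]
    have h2 := Submodule.finrank_mono h1
    have h3 : Module.finrank ℚ (Submodule.span ℚ {(fun _ => 1 : Q → ℚ)}) ≤ 1 := by
      have := finrank_span_le_card (R := ℚ) ({(fun _ => 1 : Q → ℚ)} : Set (Q → ℚ))
      simpa using this
    omega
  -- the range of `δ`
  have hRδ : Nat.card Q ≤ Module.finrank ℚ (LinearMap.range δ) + 1 := by
    refine Ree_top _ (Ree_range q hg _ ?_)
    have h1 : ∀ (i : Fin N) (m : LinearMap.range (ReeD (q i))), ReeT (P i) (m : Q → ℚ) ∈ LinearMap.range δ := by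
      intro i m
      refine ⟨Pi.single i m, ?_⟩
      rw [hδ, Finset.sum_eq_single i]
      · rw [Pi.single_eq_same]
      · intro j _ hj
        rw [Pi.single_eq_of_ne hj]
        simp
      · intro h
        exact absurd (Finset.mem_univ i) h
    intro i v
    have h2 := htel i i.2.le (ReeD (q i) v)
    have h3 : ReeD (q i) v = ReeT (P i) (ReeD (q i) v) + (ReeD (q i) v - ReeT (P i) (ReeD (q i) v)) := by
      abel
    rw [h3, ← h2]
    refine Submodule.add_mem _ (h1 i ⟨_, v, rfl⟩) (Submodule.sum_mem _ fun j _ => h1 j ⟨_, _, rfl⟩)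
  -- count
  have h1 := LinearMap.finrank_range_add_finrank_ker β
  rw [Module.finrank_fintype_fun_eq_card, ← Nat.card_eq_fintype_card] at h1
  have h2 := LinearMap.finrank_range_add_finrank_ker δ
  rw [Module.finrank_pi_fintype] at h2
  have h3 : LinearMap.range β ≤ LinearMap.ker δ := by
    rintro _ ⟨v, rfl⟩
    exact hδβ v
  have h4 := Submodule.finrank_mono h3
  omega

/-- Riemann-Hurwitz inequality. -/
theorem ree {Q : Type} [Group Q] [Fintype Q] {N : ℕ} (q : Fin N → Q)
    (hg : Subgroup.closure (Set.range q) = ⊤) (hp : (List.ofFn q).prod = 1) :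
    2 - 2 / (Nat.card Q : ℝ) ≤ ∑ i, (1 - 1 / (orderOf (q i) : ℝ)) := by
  have hn : (0 : ℝ) < (Nat.card Q : ℝ) := by exact_mod_cast Nat.card_pos
  have h1 := Ree_nat q hg hp
  have h2 : ∀ i, (Module.finrank ℚ (LinearMap.range (ReeD (q i))) : ℝ) ≤
      (Nat.card Q : ℝ) * (1 - 1 / (orderOf (q i) : ℝ)) := by
    intro i
    have h3 := ReeD_rank (q i)
    have h4 := Subgroup.card_eq_card_quotient_mul_card_subgroup (Subgroup.zpowers (q i))
    rw [Nat.card_zpowers] at h4
    have h5 : (0 : ℝ) < (orderOf (q i) : ℝ) := by exact_mod_cast orderOf_pos (q i)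
    have h6 : (Nat.card Q : ℝ) = (Nat.card (Q ⧸ Subgroup.zpowers (q i)) : ℝ) * (orderOf (q i) : ℝ) := by
      exact_mod_cast h4
    have h7 : (Module.finrank ℚ (LinearMap.range (ReeD (q i))) : ℝ) +
        (Nat.card (Q ⧸ Subgroup.zpowers (q i)) : ℝ) ≤ (Nat.card Q : ℝ) := by exact_mod_cast h3
    have h8 : (Nat.card Q : ℝ) * (1 - 1 / (orderOf (q i) : ℝ)) =
        (Nat.card Q : ℝ) - (Nat.card (Q ⧸ Subgroup.zpowers (q i)) : ℝ) := by
      rw [mul_sub, mul_one, mul_one_div]
      congr 1
      rw [h6, mul_div_assoc, div_self h5.ne', mul_one]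
    rw [h8]
    linarith
  have h3 : (2 : ℝ) * (Nat.card Q : ℝ) - 2 ≤ (Nat.card Q : ℝ) * ∑ i, (1 - 1 / (orderOf (q i) : ℝ)) := by
    have h4 : (2 : ℝ) * (Nat.card Q : ℝ) ≤
        (∑ i, (Module.finrank ℚ (LinearMap.range (ReeD (q i))) : ℝ)) + 2 := by exact_mod_cast h1
    rw [Finset.mul_sum]
    have h5 := Finset.sum_le_sum fun i (_ : i ∈ (Finset.univ : Finset (Fin N))) => h2 i
    linarith
  have h4 : (2 - 2 / (Nat.card Q : ℝ)) = (2 * (Nat.card Q : ℝ) - 2) / (Nat.card Q : ℝ) := by
    field_simp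
  rw [h4, div_le_iff₀ hn]
  linarith

end Pool.Agent.H6.VA
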