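import Pool.Agent.H6.VA.SKB
import Pool.Agent.H6.VA.Ree
import Pool.Agent.H6.VA.Arith

set_option autoImplicit false

/-!
# The lower bound for `∑_K Re chi ^ 2`

`nuK < 2`: `ree` for `G ⧸ K` (generated by the images, product `1`; `eK` = order in `G ⧸ K`) gives
`n (2 - nuK) ≤ 2 |K|`, and `|K| ≤ n / 1000`, `P_one`: the cross term is at least
`- |K| (2 + 5 n) ≥ - 6 n ^ 2 / 1000`; `1 / 64 - 6 / 1000 ≥ 1 / 7056`.
-/

namespace Pool.Agent.H6.VA

open Finset Pool.Agent.H82.CO

variable {G : Type} [Group G] [Fintype G] {N : ℕ}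

/-- `ree` for `G ⧸ K`. -/
private theorem FiveA_ree (K : Subgroup G) [K.Normal] (s : Fin N → G)
    (hg : Subgroup.closure (Set.range s) = ⊤) (hp : (List.ofFn s).prod = 1) :
    2 - 2 / (K.index : ℝ) ≤ nuK K s := by
  haveI : Fintype (G ⧸ K) := Fintype.ofFinite _
  have h1 : Subgroup.closure (Set.range fun i => QuotientGroup.mk' K (s i)) = ⊤ := by
    have h2 : (Set.range fun i => QuotientGroup.mk' K (s i)) =
        (QuotientGroup.mk' K) '' (Set.range s) := by
      rw [← Set.range_comp]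
      rfl
    rw [h2, ← MonoidHom.map_closure, hg, Subgroup.map_top_of_surjective _
      (QuotientGroup.mk'_surjective K)]
  have h3 : (List.ofFn fun i => QuotientGroup.mk' K (s i)).prod = 1 := by
    have h4 : (List.ofFn fun i => QuotientGroup.mk' K (s i)) =
        (List.ofFn s).map (QuotientGroup.mk' K) := by
      rw [List.map_ofFn]
      rfl
    rw [h4, ← map_list_prod, hp, map_one]
  have h5 := ree (fun i => QuotientGroup.mk' K (s i)) h1 h3
  have h6 : Nat.card (G ⧸ K) = K.index := rfl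
  rw [h6] at h5
  exact h5

/-- `∑_K Re chi ^ 2 ≥ n ^ 2 / 7056` unless `nuK < 2` and `K` has index less than `1000`.
`nuK > 2`: `sum_chi_sq`, `gap`. `nuK = 2`: `euclid`, and some `s i ^ e_i ≠ 1` (otherwise
`e_i = orderOf (s i)`, `nuK = nu`, `genus = 1`), `sumP_ge`. `nuK < 2`: `sphere`, `sumP_ge` with
`e_i = 1`, `ree` for `G ⧸ K`: `n (2 - nuK) ≤ 2 |K|`. -/
theorem sumK_ge (K : Subgroup G) [K.Normal] (s : Fin N → G) (hN : 4 ≤ N) (hN5 : N ≤ 5)
    (hs : ∀ i, s i ≠ 1) (hg : Subgroup.closure (Set.range s) = ⊤) (hp : (List.ofFn s).prod = 1)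
    (hgen : 1 < genus s) (hK : nuK K s < 2 → 1000 ≤ K.index) :
    (Nat.card G : ℝ) ^ 2 / 7056 ≤ (sumK K fun t => chi s t ^ 2).re := by
  have hn : (1 : ℝ) ≤ (Nat.card G : ℝ) := by exact_mod_cast Nat.card_pos
  obtain ⟨hP0, hP1, hP2⟩ := P_one K s
  have hexp := sum_chi_sq K s
  have hPn := sumP_nonneg K s
  rw [hexp]
  have hpos : ∀ i, 1 ≤ eK K (s i) := fun i => eK_pos K (s i)
  rcases lt_trichotomy (nuK K s) 2 with h | h | h
  · obtain ⟨i, hi⟩ := sphere hN (fun i => eK K (s i)) hpos h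
    have hi' : eK K (s i) = 1 := hi
    have h1 := sumP_ge K s i (by rw [hi', pow_one]; exact hs i)
    rw [hi'] at h1
    have h2 := FiveA_ree K s hg hp
    have h3 : (1000 : ℝ) ≤ (K.index : ℝ) := by exact_mod_cast hK h
    have h4 : 2 / (K.index : ℝ) ≤ 2 / 1000 := by
      apply div_le_div_of_nonneg_left <;> linarith
    have h5 : (N : ℝ) ≤ 5 := by exact_mod_cast hN5
    have h6 : (P K s 1).re ≤ 1 + (Nat.card G : ℝ) * 5 / 2 := by
      refine hP2.trans ?_
      have h7 : (Nat.card G : ℝ) * N ≤ (Nat.card G : ℝ) * 5 :=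
        mul_le_mul_of_nonneg_left h5 (by linarith)
      linarith
    have h8 : -(2 / 1000) ≤ nuK K s - 2 := by linarith
    have h9 : -(2 / 1000) * ((Nat.card G : ℝ) * (1 + (Nat.card G : ℝ) * 5 / 2)) ≤
        (Nat.card G : ℝ) * (nuK K s - 2) * (P K s 1).re := by
      have h10 : (Nat.card G : ℝ) * (P K s 1).re ≤
          (Nat.card G : ℝ) * (1 + (Nat.card G : ℝ) * 5 / 2) :=
        mul_le_mul_of_nonneg_left h6 (by linarith)
      have h11 : 0 ≤ (Nat.card G : ℝ) * (P K s 1).re := mul_nonneg (by linarith) hP1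
      have h12 : -(2 / 1000) * ((Nat.card G : ℝ) * (P K s 1).re) ≤
          (nuK K s - 2) * ((Nat.card G : ℝ) * (P K s 1).re) :=
        mul_le_mul_of_nonneg_right h8 h11
      nlinarith
    have h13 : 0 ≤ ((Nat.card G : ℝ) * (nuK K s - 2) / 2) ^ 2 := sq_nonneg _
    have h14 : ((Nat.card G : ℝ) / (8 * ((1 : ℕ) : ℝ))) ^ 2 = (Nat.card G : ℝ) ^ 2 / 64 := by
      push_cast
      ring
    rw [h14] at h1
    nlinarith
  · have h1 : ∃ i, s i ^ eK K (s i) ≠ 1 := by
      by_contra hcon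
      push Not at hcon
      have h2 : ∀ i, orderOf (s i) = eK K (s i) := by
        intro i
        have h3 := order_eq K (s i)
        rw [hcon i, orderOf_one, mul_one] at h3
        exact h3
      have h4 : nuK K s = (N : ℝ) - ∑ i, 1 / (orderOf (s i) : ℝ) := by
        unfold nuK
        rw [sum_sub_distrib, sum_const, card_univ, Fintype.card_fin, nsmul_eq_mul, mul_one]
        congr 1
        exact sum_congr rfl fun i _ => by rw [h2 i]
      have h5 : genus s = 1 := by
        unfold genus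
        have h6 : (N : ℝ) - 2 - ∑ i, 1 / (orderOf (s i) : ℝ) = 0 := by linarith
        rw [h6]
        ring
      linarith
    obtain ⟨i, hi⟩ := h1
    have h2 := sumP_ge K s i hi
    have h3 : eK K (s i) ≤ 6 := euclid (fun i => eK K (s i)) hpos h i
    have h4 : (0 : ℝ) < (eK K (s i) : ℝ) := by exact_mod_cast eK_pos K (s i)
    have h5 : (eK K (s i) : ℝ) ≤ 6 := by exact_mod_cast h3
    have h6 : (Nat.card G : ℝ) / 48 ≤ (Nat.card G : ℝ) / (8 * eK K (s i)) := by
      apply div_le_div_of_nonneg_left <;> linarith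
    have h7 : ((Nat.card G : ℝ) / 48) ^ 2 ≤ ((Nat.card G : ℝ) / (8 * eK K (s i))) ^ 2 :=
      pow_le_pow_left₀ (by positivity) h6 2
    rw [h]
    nlinarith
  · have h1 : 2 + 1 / 42 ≤ nuK K s := gap (fun i => eK K (s i)) hpos h
    have h2 : 0 ≤ (Nat.card G : ℝ) * (nuK K s - 2) * (P K s 1).re :=
      mul_nonneg (mul_nonneg (by linarith) (by linarith)) hP1
    have h3 : (Nat.card G : ℝ) / 84 ≤ (Nat.card G : ℝ) * (nuK K s - 2) / 2 := by
      nlinarith
    have h4 : ((Nat.card G : ℝ) / 84) ^ 2 ≤ ((Nat.card G : ℝ) * (nuK K s - 2) / 2) ^ 2 :=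
      pow_le_pow_left₀ (by positivity) h3 2
    nlinarith

end Pool.Agent.H6.VA
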