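import Pool.Agent.H6.VA.FiveA
import Pool.Agent.H6.VA.Err
import Pool.Agent.H6.VA.FSb

set_option autoImplicit false

/-!
# The main inequality

`two_card_quadInv`: `2 n Re quadInv = ∑ re ^ 2 - ∑ im ^ 2 + ∑ Re chi (g ^ 2)`; split the first two
sums into `K` (`sumK_ge`) and the complement (drop `re ^ 2`, `sum_im_out`); `fs_ge`.
`1 / 7056 - 1 / 100000 - 1 / 50000 ≥ 1 / 10000`.
-/

namespace Pool.Agent.H6.VA

open Finset Pool.Agent.H82.CO

variable {G : Type} [Group G] [Fintype G] {N : ℕ}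

/-- The main inequality. -/
theorem quad_ge (K : Subgroup G) [K.Normal] (s : Fin N → G) (hN : 4 ≤ N) (hN5 : N ≤ 5)
    (hs : ∀ i, s i ≠ 1) (hg : Subgroup.closure (Set.range s) = ⊤) (hp : (List.ofFn s).prod = 1)
    (hgen : 1 < genus s) (hK : nuK K s < 2 → 1000 ≤ K.index)
    (hL : ∀ i k, 1 ≤ k → k ≤ 10 ^ 6 → s i ^ k ∉ K →
      (10 : ℝ) ^ 9 ≤ ((Subgroup.centralizer ({s i ^ k} : Set G)).index : ℝ))
    (hcc : (cc G : ℝ) ≤ (Nat.card G : ℝ) ^ 2 / 10 ^ 10) :
    (Nat.card G : ℝ) / 20000 ≤ (quadInv s).re := by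
  classical
  have hn : (0 : ℝ) < Nat.card G := by exact_mod_cast Nat.card_pos
  have h1 := two_card_quadInv s
  have h2 := sumK_ge K s hN hN5 hs hg hp hgen hK
  have h3 := sum_im_out K s hN5 hL
  have h4 := fs_ge s hs hN5 (by linarith) hcc
  have h5 : (sumK K fun t => chi s t ^ 2).re =
      ∑ t : G, if t ∈ K then (chi s t).re ^ 2 - (chi s t).im ^ 2 else 0 := by
    unfold sumK
    rw [Complex.re_sum]
    refine sum_congr rfl fun t _ => ?_
    by_cases ht : t ∈ K
    · rw [if_pos ht, if_pos ht]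
      change (chi s t ^ 2).re = _
      rw [sq (chi s t), Complex.mul_re]
      ring
    · rw [if_neg ht, if_neg ht, Complex.zero_re]
  have h6 : (∑ t : G, if t ∈ K then (chi s t).re ^ 2 - (chi s t).im ^ 2 else 0) -
      (∑ t : G, if t ∈ K then (0 : ℝ) else (chi s t).im ^ 2) ≤
      ∑ g : G, (chi s g).re ^ 2 - ∑ g : G, (chi s g).im ^ 2 := by
    rw [← sum_sub_distrib, ← sum_sub_distrib]
    refine sum_le_sum fun t _ => ?_
    by_cases ht : t ∈ K
    · rw [if_pos ht, if_pos ht]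
      linarith
    · rw [if_neg ht, if_neg ht]
      have := sq_nonneg (chi s t).re
      linarith
  rw [h5] at h2
  have h7 : (Nat.card G : ℝ) ^ 2 / 10000 ≤ 2 * Nat.card G * (quadInv s).re := by
    rw [h1]
    have h8 : 0 ≤ (Nat.card G : ℝ) ^ 2 := sq_nonneg _
    linarith
  have h9 : (Nat.card G : ℝ) * ((Nat.card G : ℝ) / 20000) ≤ Nat.card G * (quadInv s).re := by
    have e : (Nat.card G : ℝ) * ((Nat.card G : ℝ) / 20000) = (Nat.card G : ℝ) ^ 2 / 10000 / 2 := by ring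
    rw [e]
    linarith
  exact le_of_mul_le_mul_left h9 hn

end Pool.Agent.H6.VA
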