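import Pool.Agent.H6.VA.PD
import Pool.Agent.H82.CO.Eps

set_option autoImplicit false

/-!
# Functions induced from cyclic subgroups

`ind c α` is the class function induced from the function `c ^ k ↦ ∑_a α_a ζ ^ (a k)` on the cyclic
group generated by `c`, `ζ = exp (2πi / m)`, `m` the order of `c`.
* `ind_one`: only `k = 0` contributes.
* `ind_real`: if `α_a = α_(m - a)` for `0 < a < m` all values are real.
-/

namespace Pool.Agent.H6.VA

open Finset ComplexConjugate Pool.Agent.H82.CO

variable {G : Type} [Group G] [Fintype G]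

open Classical in
/-- The function induced from the cyclic group generated by `c`. -/
noncomputable def ind (c : G) (α : ℕ → ℝ) (t : G) : ℂ :=
  (1 / (orderOf c : ℂ)) * ∑ x : G, ∑ k ∈ range (orderOf c),
    if x * c ^ k * x⁻¹ = t then ∑ a ∈ range (orderOf c), (α a : ℂ) * zeta (orderOf c) ^ (a * k)
    else 0

private theorem Ind_inner_real {m : ℕ} (hm : 0 < m) {α : ℕ → ℝ}
    (h : ∀ a, 0 < a → a < m → α (m - a) = α a) (k : ℕ) :
    conj (∑ a ∈ range m, (α a : ℂ) * zeta m ^ (a * k)) =
      ∑ a ∈ range m, (α a : ℂ) * zeta m ^ (a * k) := by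
  rw [map_sum]
  obtain ⟨n, rfl⟩ : ∃ n, m = n + 1 := ⟨m - 1, by omega⟩
  rw [Finset.sum_range_succ', Finset.sum_range_succ']
  congr 1
  · rw [← Finset.sum_range_reflect]
    apply Finset.sum_congr rfl
    intro a ha
    have ha' := mem_range.mp ha
    have e : n - 1 - a + 1 = n + 1 - (a + 1) := by omega
    rw [e, h (a + 1) (by omega) (by omega), map_mul, map_pow, conj_zeta hm, Complex.conj_ofReal]
    congr 1
    rw [inv_pow]
    apply inv_eq_of_mul_eq_one_left
    rw [← pow_add, ← add_mul]
    have e2 : a + 1 + (n + 1 - (a + 1)) = n + 1 := by omega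
    rw [e2, pow_mul, zeta_pow hm, one_pow]
  · simp

theorem ind_one (c : G) (α : ℕ → ℝ) :
    ind c α 1 = ((Nat.card G : ℝ) / orderOf c * ∑ a ∈ range (orderOf c), α a : ℝ) := by
  classical
  have hm : 0 < orderOf c := orderOf_pos c
  unfold ind
  have h1 : ∀ x : G, ∑ k ∈ range (orderOf c), (if x * c ^ k * x⁻¹ = 1 then
      ∑ a ∈ range (orderOf c), (α a : ℂ) * zeta (orderOf c) ^ (a * k) else 0) =
      ∑ a ∈ range (orderOf c), (α a : ℂ) := by
    intro x
    rw [Finset.sum_eq_single_of_mem 0 (mem_range.mpr hm)]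
    · simp
    · intro k hk hk0
      rw [if_neg]
      intro h
      rw [conj_eq_one_iff] at h
      have h2 := Nat.le_of_dvd (Nat.pos_of_ne_zero hk0) (orderOf_dvd_of_pow_eq_one h)
      have h3 := mem_range.mp hk
      omega
  rw [Finset.sum_congr rfl fun x _ => h1 x, Finset.sum_const, Finset.card_univ,
    ← Nat.card_eq_fintype_card, nsmul_eq_mul]
  push_cast
  ring

theorem ind_add (c : G) (α β : ℕ → ℝ) (t : G) :
    ind c (fun a => α a + β a) t = ind c α t + ind c β t := by
  classical
  unfold ind
  rw [← mul_add, ← Finset.sum_add_distrib]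
  congr 1
  apply Finset.sum_congr rfl
  intro x _
  rw [← Finset.sum_add_distrib]
  apply Finset.sum_congr rfl
  intro k _
  split_ifs
  · rw [← Finset.sum_add_distrib]
    apply Finset.sum_congr rfl
    intro a _
    push_cast
    ring
  · rw [add_zero]

theorem ind_real (c : G) {α : ℕ → ℝ}
    (h : ∀ a, 0 < a → a < orderOf c → α (orderOf c - a) = α a) (t : G) : (ind c α t).im = 0 := by
  classical
  have hm : 0 < orderOf c := orderOf_pos c
  rw [← Complex.conj_eq_iff_im]
  unfold ind
  rw [map_mul, map_div₀, map_one, Complex.conj_natCast, map_sum]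
  congr 1
  apply Finset.sum_congr rfl
  intro x _
  rw [map_sum]
  apply Finset.sum_congr rfl
  intro k _
  split_ifs
  · exact Ind_inner_real hm h k
  · exact map_zero _

end Pool.Agent.H6.VA
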