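import Pool.Agent.H6.VA.Ind

set_option autoImplicit false

/-!
# Induced functions are positive definite

For `α = ` the indicator of `a`: `m ^ 2 ind c α (s⁻¹ t) = ∑_(x, y) conj (F_xy s) F_xy t`
with `F_xy t = ∑_(k < m) if t x = y c ^ k then ζ ^ (a k) else 0` (the sum over `y` gives
`∑_(k, l) if t x = s x c ^ (k - l) then ζ ^ (a (k - l))`); then linear combinations (`PD.sum`,
`PD.smul`).
-/

namespace Pool.Agent.H6.VA

open Finset ComplexConjugate Pool.Agent.H82.CO

variable {G : Type} [Group G] [Fintype G]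

open Classical in
/-- The character `c ^ k ↦ ζ ^ (a k)` of the cyclic group generated by `c`, extended by zero. -/
noncomputable def indPD_f (c : G) (a : ℕ) (u : G) : ℂ :=
  ∑ k ∈ range (orderOf c), if c ^ k = u then zeta (orderOf c) ^ (a * k) else 0

theorem indPD_pow (c : G) (a k : ℕ) : indPD_f c a (c ^ k) = zeta (orderOf c) ^ (a * k) := by
  have hm : 0 < orderOf c := orderOf_pos c
  unfold indPD_f
  rw [Finset.sum_eq_single (k % orderOf c)]
  · rw [if_pos (pow_mod_orderOf c k)]
    have h := Nat.div_add_mod k (orderOf c)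
    have h2 : a * k = orderOf c * (a * (k / orderOf c)) + a * (k % orderOf c) := by
      conv_lhs => rw [← h]
      ring
    rw [h2, pow_add, pow_mul (zeta (orderOf c)) (orderOf c), zeta_pow hm, one_pow, one_mul]
  · intro l hl hne
    rw [if_neg]
    intro h
    apply hne
    have h3 : l % orderOf c = k % orderOf c := pow_eq_pow_iff_modEq.1 h
    rwa [Nat.mod_eq_of_lt (mem_range.1 hl)] at h3
  · intro h
    exact absurd (mem_range.2 (Nat.mod_lt _ hm)) h

theorem indPD_trans (c : G) (a k : ℕ) (w : G) :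
    indPD_f c a (c ^ k * w) = zeta (orderOf c) ^ (a * k) * indPD_f c a w := by
  by_cases h : ∃ l : ℕ, c ^ l = w
  · obtain ⟨l, rfl⟩ := h
    rw [← pow_add, indPD_pow, indPD_pow, mul_add, pow_add]
  · have h1 : indPD_f c a w = 0 := Finset.sum_eq_zero fun l _ => if_neg fun h2 => h ⟨l, h2⟩
    have h3 : indPD_f c a (c ^ k * w) = 0 := by
      refine Finset.sum_eq_zero fun l _ => if_neg fun h2 => h ?_
      have hlt : k % orderOf c < orderOf c := Nat.mod_lt _ (orderOf_pos c)
      refine ⟨(orderOf c - k % orderOf c) + l, ?_⟩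
      rw [pow_add, h2, ← pow_mod_orderOf c k, ← mul_assoc, ← pow_add,
        Nat.sub_add_cancel hlt.le, pow_orderOf_eq_one, one_mul]
    rw [h1, h3, mul_zero]

theorem indPD_conv (c : G) (a : ℕ) (w : G) :
    ∑ z : G, conj (indPD_f c a z) * indPD_f c a (z * w) = (orderOf c : ℂ) * indPD_f c a w := by
  classical
  have hm : 0 < orderOf c := orderOf_pos c
  have h1 : ∀ z : G, conj (indPD_f c a z) * indPD_f c a (z * w) = ∑ k ∈ range (orderOf c),
      if c ^ k = z then conj (zeta (orderOf c) ^ (a * k)) * indPD_f c a (z * w) else 0 := by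
    intro z
    generalize indPD_f c a (z * w) = v
    unfold indPD_f
    rw [map_sum, Finset.sum_mul]
    refine Finset.sum_congr rfl fun k _ => ?_
    split_ifs
    · rfl
    · rw [map_zero, zero_mul]
  rw [Finset.sum_congr rfl fun z _ => h1 z, Finset.sum_comm]
  have h2 : ∀ k ∈ range (orderOf c), (∑ z : G,
      if c ^ k = z then conj (zeta (orderOf c) ^ (a * k)) * indPD_f c a (z * w) else 0) =
      indPD_f c a w := by
    intro k _
    rw [Finset.sum_eq_single (c ^ k), if_pos rfl, indPD_trans, ← mul_assoc]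
    · have h3 : conj (zeta (orderOf c) ^ (a * k)) * zeta (orderOf c) ^ (a * k) = 1 := by
        rw [map_pow, conj_zeta hm, inv_pow, inv_mul_cancel₀ (pow_ne_zero _ (zeta_ne hm))]
      rw [h3, one_mul]
    · intro z _ hz
      exact if_neg fun h => hz h.symm
    · intro h
      exact absurd (Finset.mem_univ _) h
  rw [Finset.sum_congr rfl h2, Finset.sum_const, Finset.card_range, nsmul_eq_mul]

theorem indPD_char (c : G) (a : ℕ) :
    PD (fun t : G => (orderOf c : ℂ) * ∑ x : G, indPD_f c a (x⁻¹ * t * x)) := by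
  refine ⟨G × G, inferInstance, fun p t => indPD_f c a (p.2⁻¹ * (t * p.1)), fun s t => ?_⟩
  rw [Fintype.sum_prod_type]
  beta_reduce
  rw [Finset.mul_sum]
  refine Finset.sum_congr rfl fun x _ => ?_
  rw [← indPD_conv, ← Equiv.sum_comp ((Equiv.inv G).trans (Equiv.mulRight (s * x)))]
  refine Finset.sum_congr rfl fun y _ => ?_
  have h1 : ((Equiv.inv G).trans (Equiv.mulRight (s * x))) y = y⁻¹ * (s * x) := rfl
  have h2 : y⁻¹ * (s * x) * (x⁻¹ * (s⁻¹ * t) * x) = y⁻¹ * (t * x) := by group
  rw [h1, h2]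

theorem ind_pd (c : G) {α : ℕ → ℝ} (h : ∀ a, 0 ≤ α a) : PD (ind c α) := by
  classical
  have hm : 0 < orderOf c := orderOf_pos c
  have hm' : (orderOf c : ℂ) ≠ 0 := by exact_mod_cast hm.ne'
  have he : ind c α = fun t : G => ∑ a ∈ range (orderOf c),
      ((α a / (orderOf c : ℝ) ^ 2 : ℝ) : ℂ) *
        ((orderOf c : ℂ) * ∑ x : G, indPD_f c a (x⁻¹ * t * x)) := by
    funext t
    have h1 : ∀ (x : G) (k : ℕ), (if x * c ^ k * x⁻¹ = t then
        ∑ a ∈ range (orderOf c), (α a : ℂ) * zeta (orderOf c) ^ (a * k) else 0) =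
        ∑ a ∈ range (orderOf c), (α a : ℂ) *
          (if c ^ k = x⁻¹ * t * x then zeta (orderOf c) ^ (a * k) else 0) := by
      intro x k
      by_cases h2 : c ^ k = x⁻¹ * t * x
      · have h3 : x * c ^ k * x⁻¹ = t := by
          rw [h2]
          group
        rw [if_pos h3]
        simp only [if_pos h2]
      · have h3 : ¬ x * c ^ k * x⁻¹ = t := by
          intro h4
          apply h2
          rw [← h4]
          group
        rw [if_neg h3]
        simp only [if_neg h2, mul_zero, Finset.sum_const_zero]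
    have h5 : (∑ x : G, ∑ k ∈ range (orderOf c), if x * c ^ k * x⁻¹ = t then
        ∑ a ∈ range (orderOf c), (α a : ℂ) * zeta (orderOf c) ^ (a * k) else 0) =
        ∑ a ∈ range (orderOf c), (α a : ℂ) * ∑ x : G, indPD_f c a (x⁻¹ * t * x) := by
      rw [Finset.sum_congr rfl fun x _ => Finset.sum_congr rfl fun k _ => h1 x k]
      rw [Finset.sum_congr rfl fun x _ => Finset.sum_comm, Finset.sum_comm]
      refine Finset.sum_congr rfl fun a _ => ?_
      rw [Finset.mul_sum]
      refine Finset.sum_congr rfl fun x _ => ?_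
      unfold indPD_f
      rw [Finset.mul_sum]
    unfold ind
    rw [h5, Finset.mul_sum]
    refine Finset.sum_congr rfl fun a _ => ?_
    push_cast
    field_simp
  rw [he]
  exact PD.sum (range (orderOf c)) (fun (a : ℕ) (t : G) => ((α a / (orderOf c : ℝ) ^ 2 : ℝ) : ℂ) *
        ((orderOf c : ℂ) * ∑ x : G, indPD_f c a (x⁻¹ * t * x)))
    fun a _ => PD.smul (div_nonneg (h a) (by positivity)) (indPD_char c a)

end Pool.Agent.H6.VA
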