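import Pool.Agent.H82.CO.Final

set_option autoImplicit false

/-!
# Six or more branch points

`ineq_P`: `P ≥ n (k + 2) / 2 ≥ n`; the left side is increasing in `P ≥ n`, at `P = n` it is
`(3 / 32) n ^ 2 - (9 / 2) n + 2`; the term with `k` is `≥ 0`.
-/

namespace Pool.Agent.H6.VA

open Finset Pool.Agent.H82.CO

/-- Six or more branch points (`ineq_P`, `arith_n`). -/
theorem six {G : Type} [Group G] [Fintype G] {N : ℕ} (s : Fin N → G) (hs : ∀ i, s i ≠ 1)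
    (hN : 6 ≤ N) (hG : 200 ≤ Nat.card G) :
    (Nat.card G : ℝ) / 20000 ≤ (quadInv s).re ∧ (N : ℝ) - 3 < (quadInv s).re := by
  obtain ⟨n, P, k, hn, hP, hk, hn2, hPn, h⟩ := ineq_P s hs hN
  have hN' : (6 : ℝ) ≤ N := by exact_mod_cast hN
  have hk0 : 0 ≤ k := by linarith
  have h200 : (200 : ℝ) ≤ n := by rw [hn]; exact_mod_cast hG
  have hA := (arith_n hn2 hk0 hPn).trans h
  obtain ⟨y, hy⟩ : ∃ y : ℝ, y = k + 2 := ⟨_, rfl⟩
  rw [← hy] at hA
  have hy2 : 2 ≤ y := by linarith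
  have h1 : 0 ≤ (n - 200) * (y ^ 2 / 16 - 5 / 32 - 1 / 10000) :=
    mul_nonneg (by linarith) (by nlinarith)
  have h2 : 5 * y / 4 + 2 ≤ 200 * (y ^ 2 / 16 - 5 / 32 - 1 / 10000) := by nlinarith
  have h3 : 0 ≤ n * (n * (y ^ 2 / 16 - 5 / 32 - 1 / 10000) - (5 * y / 4 + 2)) :=
    mul_nonneg (by linarith) (by linarith)
  have h4 : 0 < 2 * n * ((quadInv s).re - (N - 3) - n / 20000) := by nlinarith
  have h5 : 0 < (quadInv s).re - (N - 3) - n / 20000 :=
    (mul_pos_iff_of_pos_left (by linarith)).1 h4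
  rw [← hn]
  constructor <;> linarith

end Pool.Agent.H6.VA
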