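import Pool.Agent.H6.VA.Five
import Pool.Agent.H6.VA.Six

set_option autoImplicit false

/-!
# All numbers of branch points
-/

namespace Pool.Agent.H6.VA

open Finset Pool.Agent.H82.CO

/-- A small group: the trivial subgroup. -/
private theorem main_small {G : Type} [Group G] [Fintype G] {B : ℕ} (h : Nat.card G ≤ B) :
    AbN G B := by
  refine ⟨⊥, inferInstance, ?_, ?_, ?_⟩
  · intro a ha b hb
    rw [Subgroup.mem_bot] at ha hb
    rw [ha, hb]
  · rw [Subgroup.index_bot]
    exact h
  · rw [Subgroup.index_bot]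
    exact Nat.card_pos.ne'

/-- Monotone in the bound. -/
private theorem main_mono {G : Type} [Group G] {B B' : ℕ} (h : B ≤ B') (hG : AbN G B) :
    AbN G B' := by
  obtain ⟨A, h1, h2, h3, h4⟩ := hG
  exact ⟨A, h1, h2, h3.trans h, h4⟩

theorem main : ∃ B : ℕ, ∀ (G : Type) [Group G] [Fintype G] (N : ℕ) (s : Fin N → G), 4 ≤ N →
    (∀ i, s i ≠ 1) → Subgroup.closure (Set.range s) = ⊤ → (List.ofFn s).prod = 1 → 1 < genus s →
    AbN G B ∨
      ((Nat.card G : ℝ) / 20000 ≤ (quadInv s).re ∧ (N : ℝ) - 3 < (quadInv s).re) := by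
  obtain ⟨B, hB⟩ := five
  refine ⟨max B 60000, ?_⟩
  intro G _ _ N s hN hs hgen hprod hg
  by_cases hc : Nat.card G ≤ 60000
  · exact Or.inl (main_small (hc.trans (le_max_right _ _)))
  push Not at hc
  by_cases h5 : N ≤ 5
  · rcases hB G N s hN h5 hs hgen hprod hg with h | h
    · exact Or.inl (main_mono (le_max_left _ _) h)
    · refine Or.inr ⟨h, lt_of_lt_of_le ?_ h⟩
      have h1 : (60000 : ℝ) < (Nat.card G : ℝ) := by exact_mod_cast hc
      have h2 : (N : ℝ) ≤ 5 := by exact_mod_cast h5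
      linarith
  · push Not at h5
    exact Or.inr (six s hs h5 (by omega))

end Pool.Agent.H6.VA
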