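import Pool.Agent.H6.VA.Struct

set_option autoImplicit false

/-!
# P. Neumann's theorem for groups with few generators

`cc G ≥ δ n ^ 2` (commuting pairs), `D = 2 / δ`. `X = {x : at most D conjugates}`: `x ∉ X` has a
centralizer with at most `n / D` elements, so `δ n ^ 2 ≤ |X| n + n (n / D)`, `|X| ≥ (δ / 2) n`.
`X = X⁻¹`, `1 ∈ X`, conjugation invariant; `M` = subgroup generated by `X`, `M.index ≤ D`.
* `pow_eq`: if `|X| r ≥ n` then `X ^ (3 r + 1) = M` (as sets: every element of `M` is a product of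
  `3 r + 1` elements of `X`). Otherwise choose `z_j ∈ X ^ (3 j + 3) \ X ^ (3 j + 2)` for
  `j = 0, …, r`: the sets `z_j X ⊆ X ^ (3 j + 4)`, disjoint from `X ^ (3 j + 1)`, are pairwise
  disjoint: `(r + 1) |X| ≤ n`.
* `M` is generated by at most `M.index * N` elements (Schreier:
  `Subgroup.exists_finset_card_le_mul`), so by at most `D * N * (3 r + 1)` elements of `X`; the
  centre of `M` is the intersection of their centralizers (in `M`), each of index at most `D`.
  It is characteristic in `M`, which is normal in `G`.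
-/


namespace Pool.Agent.H6.VA

open Pointwise

theorem NeuA_stab {G : Type} [Group G] [DecidableEq G] (X : Finset G) (k : ℕ)
    (h : X ^ (k + 1) = X ^ k) (m : ℕ) (hm : k ≤ m) : X ^ m = X ^ k := by
  induction m, hm using Nat.le_induction with
  | base => rfl
  | succ m _ ih => rw [pow_succ, ih, ← pow_succ, h]

theorem NeuA_mem {G : Type} [Group G] [DecidableEq G] (X : Finset G)
    (hi : ∀ x ∈ X, x⁻¹ ∈ X) (g : G) (hg : g ∈ Subgroup.closure (X : Set G)) :
    ∃ m : ℕ, g ∈ X ^ m := by
  have hX : X⁻¹ = X := by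
    ext x
    rw [Finset.mem_inv']
    exact ⟨fun h => by simpa using hi _ h, fun h => hi _ h⟩
  induction hg using Subgroup.closure_induction with
  | mem x hx => exact ⟨1, by simpa using hx⟩
  | one => exact ⟨0, by simp⟩
  | mul x y _ _ h2 h3 =>
      obtain ⟨a, ha⟩ := h2
      obtain ⟨b, hb⟩ := h3
      exact ⟨a + b, by rw [pow_add]; exact Finset.mul_mem_mul ha hb⟩
  | inv x _ h2 =>
      obtain ⟨a, ha⟩ := h2
      refine ⟨a, ?_⟩
      have h3 := Finset.inv_mem_inv ha
      rwa [← inv_pow, hX] at h3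

theorem NeuA_grow {G : Type} [Group G] [DecidableEq G] (X : Finset G) (h1 : (1 : G) ∈ X)
    (hi : ∀ x ∈ X, x⁻¹ ∈ X) (r : ℕ) (hr : ∀ j < r, X ^ (3 * j + 3) ≠ X ^ (3 * j + 2)) :
    (r + 1) * X.card ≤ (X ^ (3 * r + 1)).card := by
  induction r with
  | zero => simp
  | succ r ih =>
      have h2 := ih fun j hj => hr j (by omega)
      have h3 : X ^ (3 * r + 2) ⊆ X ^ (3 * r + 3) := Finset.pow_subset_pow_right h1 (by omega)
      obtain ⟨z, hz, hz'⟩ : ∃ z ∈ X ^ (3 * r + 3), z ∉ X ^ (3 * r + 2) := by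
        by_contra hcon
        push Not at hcon
        exact hr r (by omega) (Finset.Subset.antisymm hcon h3)
      have h4 : Disjoint (X ^ (3 * r + 1)) ({z} * X) := by
        rw [Finset.disjoint_left]
        intro y hy hy'
        obtain ⟨a, ha, x, hx, rfl⟩ := Finset.mem_mul.1 hy'
        rw [Finset.mem_singleton] at ha
        subst ha
        refine hz' ?_
        have h5 : a = (a * x) * x⁻¹ := by group
        rw [h5, show 3 * r + 2 = (3 * r + 1) + 1 from rfl, pow_succ]
        exact Finset.mul_mem_mul hy (hi x hx)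
      have h5 : X ^ (3 * r + 1) ∪ {z} * X ⊆ X ^ (3 * (r + 1) + 1) := by
        apply Finset.union_subset
        · exact Finset.pow_subset_pow_right h1 (by omega)
        · rw [show 3 * (r + 1) + 1 = (3 * r + 3) + 1 by ring, pow_succ]
          exact Finset.mul_subset_mul_right (Finset.singleton_subset_iff.2 hz)
      have h6 := Finset.card_le_card h5
      rw [Finset.card_union_of_disjoint h4, Finset.card_singleton_mul] at h6
      calc (r + 1 + 1) * X.card = (r + 1) * X.card + X.card := by ring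
        _ ≤ (X ^ (3 * (r + 1) + 1)).card := by omega

/-- The growth lemma. -/
theorem pow_eq {G : Type} [Group G] [Fintype G] [DecidableEq G] (X : Finset G) (h1 : (1 : G) ∈ X)
    (hi : ∀ x ∈ X, x⁻¹ ∈ X) (r : ℕ) (hr : Fintype.card G ≤ r * X.card) :
    ∀ g ∈ Subgroup.closure (X : Set G), g ∈ X ^ (3 * r + 3) := by
  intro g hg
  obtain ⟨m, hm⟩ := NeuA_mem X hi g hg
  by_cases hr' : ∀ j < r, X ^ (3 * j + 3) ≠ X ^ (3 * j + 2)
  · have h2 := NeuA_grow X h1 hi r hr'
    have h3 : (X ^ (3 * r + 1)).card ≤ Fintype.card G := Finset.card_le_univ _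
    have h4 : 0 < X.card := Finset.card_pos.2 ⟨1, h1⟩
    have h5 : (r + 1) * X.card = r * X.card + X.card := by ring
    omega
  · push Not at hr'
    obtain ⟨j, hj, h2⟩ := hr'
    have h3 : g ∈ X ^ (m + (3 * j + 2)) := Finset.pow_subset_pow_right h1 (by omega) hm
    rw [NeuA_stab X (3 * j + 2) h2 _ (by omega)] at h3
    exact Finset.pow_subset_pow_right h1 (by omega) h3

end Pool.Agent.H6.VA
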