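import Pool.Agent.H6.VA.NeuA

set_option autoImplicit false

/-!
# Sets with many elements with few conjugates (see `NeuA.lean`)

`M = closure X` is normal, `M.index ≤ r`, generated by `≤ r N` elements (Schreier:
`Subgroup.exists_finset_card_le_mul`), each a product of `3 r + 3` elements of `X` (`pow_eq`), so by a
set `S'` of at most `r N (3 r + 3)` elements of `X`; the centralizer of `S'` has index at most
`D ^ (r N (3 r + 3))`, `A` = its intersection with `M` = the centre of `M`.
-/


namespace Pool.Agent.H6.VA

open Pointwise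

private theorem NeuB_closure_normal {G : Type} [Group G] (X : Set G)
    (hc : ∀ x ∈ X, ∀ g : G, g * x * g⁻¹ ∈ X) : (Subgroup.closure X).Normal := by
  refine ⟨fun n hn g => ?_⟩
  have h2 : ∀ y ∈ X, g * y * g⁻¹ ∈ Subgroup.closure X := fun y hy =>
    Subgroup.subset_closure (hc y hy g)
  have h3 : Subgroup.closure X ≤ (Subgroup.closure X).comap (MulAut.conj g).toMonoidHom := by
    rw [Subgroup.closure_le]
    intro y hy
    show (MulAut.conj g) y ∈ Subgroup.closure X
    rw [MulAut.conj_apply]
    exact h2 y hy
  have h4 := h3 hn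
  have h5 : (MulAut.conj g) n ∈ Subgroup.closure X := h4
  rwa [MulAut.conj_apply] at h5

private theorem NeuB_index_centralizer {G : Type} [Group G] [Finite G] [DecidableEq G] (S : Finset G) (D : ℕ)
    (hS : ∀ x ∈ S, (Subgroup.centralizer ({x} : Set G)).index ≤ D) :
    (Subgroup.centralizer (S : Set G)).index ≤ D ^ S.card := by
  have h1 : (⨅ s : S, Subgroup.centralizer ({(s : G)} : Set G)) ≤ Subgroup.centralizer (S : Set G) := by
    intro g hg
    rw [Subgroup.mem_iInf] at hg
    rw [Subgroup.mem_centralizer_iff]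
    intro s hs
    have := hg ⟨s, hs⟩
    rw [Subgroup.mem_centralizer_iff] at this
    exact this s rfl
  calc (Subgroup.centralizer (S : Set G)).index
      ≤ (⨅ s : S, Subgroup.centralizer ({(s : G)} : Set G)).index := Subgroup.index_antitone h1
    _ ≤ ∏ s : S, (Subgroup.centralizer ({(s : G)} : Set G)).index := Subgroup.index_iInf_le _
    _ ≤ ∏ _s : S, D := Finset.prod_le_prod' fun s _ => hS s s.2
    _ = D ^ S.card := by simp

/-- A set with many elements with few conjugates. -/
theorem neumann_set {G : Type} [Group G] [Fintype G] [DecidableEq G] (X : Finset G) (D r N : ℕ)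
    (h1 : (1 : G) ∈ X) (hi : ∀ x ∈ X, x⁻¹ ∈ X) (hc : ∀ x ∈ X, ∀ g : G, g * x * g⁻¹ ∈ X)
    (hX : ∀ x ∈ X, (Subgroup.centralizer ({x} : Set G)).index ≤ D)
    (hr : Fintype.card G ≤ r * X.card)
    (hN : ∃ S : Finset G, S.card ≤ N ∧ Subgroup.closure (S : Set G) = ⊤) :
    AbN G (r * D ^ (r * N * (3 * r + 3))) := by
  obtain ⟨S, hSN, hS⟩ := hN
  have hMn : (Subgroup.closure (X : Set G)).Normal := NeuB_closure_normal _ hc
  -- the index of `M`
  have hMi : (Subgroup.closure (X : Set G)).index ≤ r := by
    have e1 := (Subgroup.closure (X : Set G)).card_mul_index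
    rw [Nat.card_eq_fintype_card (α := G)] at e1
    have e2 : X.card ≤ Nat.card (Subgroup.closure (X : Set G)) := by
      have : Nat.card (X : Set G) ≤ Nat.card (Subgroup.closure (X : Set G)) :=
        Nat.card_mono (Set.toFinite _) Subgroup.subset_closure
      simpa using this
    have e3 : 0 < X.card := Finset.card_pos.mpr ⟨1, h1⟩
    by_contra hlt
    push Not at hlt
    have e4 : r * X.card < (Subgroup.closure (X : Set G)).index * X.card :=
      Nat.mul_lt_mul_of_pos_right hlt e3
    have e5 : (Subgroup.closure (X : Set G)).index * X.card ≤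
        (Subgroup.closure (X : Set G)).index * Nat.card (Subgroup.closure (X : Set G)) :=
      Nat.mul_le_mul_left _ e2
    rw [mul_comm _ (Nat.card _), e1] at e5
    omega
  obtain ⟨T, hTc, hT⟩ := Subgroup.exists_finset_card_le_mul (Subgroup.closure (X : Set G)) hS
  -- words
  have hw : ∀ t : T, ∃ f : Fin (3 * r + 3) → X, (List.ofFn fun i => ((f i : X) : G)).prod = ((t : Subgroup.closure (X : Set G)) : G) :=
    fun t => Finset.mem_pow.mp (pow_eq X h1 hi r hr _ (t : Subgroup.closure (X : Set G)).2)
  choose f hf using hw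
  let S' : Finset G := (Finset.univ : Finset (T × Fin (3 * r + 3))).image fun q => ((f q.1 q.2 : X) : G)
  have hS'c : S'.card ≤ r * N * (3 * r + 3) := by
    refine Finset.card_image_le.trans ?_
    rw [Finset.card_univ, Fintype.card_prod, Fintype.card_fin, Fintype.card_coe]
    exact Nat.mul_le_mul_right _ (hTc.trans (Nat.mul_le_mul hMi hSN))
  have hS'X : ∀ x ∈ S', x ∈ X := by
    intro x hx
    obtain ⟨q, -, rfl⟩ := Finset.mem_image.mp hx
    exact (f q.1 q.2).2
  have hD : 1 ≤ D := by
    refine le_trans ?_ (hX 1 h1)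
    exact Nat.one_le_iff_ne_zero.mpr Subgroup.index_ne_zero_of_finite
  have hC : (Subgroup.centralizer (S' : Set G)).index ≤ D ^ (r * N * (3 * r + 3)) :=
    (NeuB_index_centralizer S' D fun x hx => hX x (hS'X x hx)).trans (Nat.pow_le_pow_right hD hS'c)
  -- the centralizer of `S'` centralizes `M`
  have hCM : Subgroup.centralizer (S' : Set G) ≤ Subgroup.centralizer (Subgroup.closure (X : Set G) : Set G) := by
    intro g hg
    have k1 : ∀ t : T, Commute ((t : Subgroup.closure (X : Set G)) : G) g := by
      intro t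
      rw [← hf t]
      apply Commute.list_prod_left
      intro y hy
      rw [List.mem_ofFn] at hy
      obtain ⟨i, rfl⟩ := hy
      rw [Subgroup.mem_centralizer_iff] at hg
      exact hg _ (Finset.mem_coe.mpr (Finset.mem_image.mpr ⟨(t, i), Finset.mem_univ _, rfl⟩))
    have k2 : Subgroup.closure (T : Set (Subgroup.closure (X : Set G))) ≤
        (Subgroup.centralizer ({g} : Set G)).comap (Subgroup.closure (X : Set G)).subtype := by
      rw [Subgroup.closure_le]
      intro t ht
      show ((Subgroup.closure (X : Set G)).subtype t) ∈ Subgroup.centralizer ({g} : Set G)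
      rw [Subgroup.mem_centralizer_iff]
      rintro _ rfl
      exact (k1 ⟨t, ht⟩).symm
    rw [hT] at k2
    rw [Subgroup.mem_centralizer_iff]
    intro m hm
    have k3 : (Subgroup.closure (X : Set G)).subtype ⟨m, hm⟩ ∈ Subgroup.centralizer ({g} : Set G) :=
      k2 (Subgroup.mem_top _)
    rw [Subgroup.mem_centralizer_iff] at k3
    exact (k3 g rfl).symm
  refine ⟨Subgroup.closure (X : Set G) ⊓ Subgroup.centralizer (Subgroup.closure (X : Set G) : Set G),
    inferInstance, ?_, ?_, Subgroup.index_ne_zero_of_finite⟩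
  · intro a ha b hb
    have := (Subgroup.mem_centralizer_iff.mp ha.2) b hb.1
    exact this.symm
  · calc (Subgroup.closure (X : Set G) ⊓ Subgroup.centralizer (Subgroup.closure (X : Set G) : Set G)).index
        ≤ (Subgroup.closure (X : Set G) ⊓ Subgroup.centralizer (S' : Set G)).index :=
          Subgroup.index_antitone (inf_le_inf_left _ hCM)
      _ ≤ (Subgroup.closure (X : Set G)).index * (Subgroup.centralizer (S' : Set G)).index :=
          Subgroup.index_inf_le
      _ ≤ r * D ^ (r * N * (3 * r + 3)) := Nat.mul_le_mul hMi hC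

end Pool.Agent.H6.VA
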