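import Mathlib

set_option autoImplicit false

/-!
# Positive definite functions on a finite group

`PD φ`: `φ (s⁻¹ t) = ∑_j conj (F_j s) F_j t` for finitely many functions `F_j`. Proofs:
* `add`: disjoint union of the index types; `mul`: product, `F_(i,j) = F_i F'_j`; `smul`: multiply
  all `F_j` by the square root; `one`: one function `1`; `delta` (`φ = 1` at `1`, `0` otherwise):
  index type `G`, `F_j s = if s = j then 1 else 0`.
* `sum_nonneg`: for a subgroup `K`, `|K| ∑_{t ∈ K} φ t = ∑_{s, t ∈ K} φ (s⁻¹ t) =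
  ∑_j |∑_{t ∈ K} F_j t| ^ 2`.
-/

namespace Pool.Agent.H6.VA

open Finset ComplexConjugate

variable {G : Type} [Group G] [Fintype G]

/-- Positive definite functions. -/
def PD (φ : G → ℂ) : Prop :=
  ∃ (ι : Type) (_ : Fintype ι) (F : ι → G → ℂ), ∀ s t : G,
    φ (s⁻¹ * t) = ∑ j, conj (F j s) * F j t

theorem PD.add {φ ψ : G → ℂ} (h1 : PD φ) (h2 : PD ψ) : PD (fun t => φ t + ψ t) := by
  obtain ⟨ι, _, F, hF⟩ := h1
  obtain ⟨κ, _, H, hH⟩ := h2
  refine ⟨ι ⊕ κ, inferInstance, Sum.elim F H, fun s t => ?_⟩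
  rw [Fintype.sum_sum_type]
  simp only [Sum.elim_inl, Sum.elim_inr]
  rw [hF, hH]

theorem PD.mul {φ ψ : G → ℂ} (h1 : PD φ) (h2 : PD ψ) : PD (fun t => φ t * ψ t) := by
  obtain ⟨ι, _, F, hF⟩ := h1
  obtain ⟨κ, _, H, hH⟩ := h2
  refine ⟨ι × κ, inferInstance, fun p s => F p.1 s * H p.2 s, fun s t => ?_⟩
  rw [Fintype.sum_prod_type]
  show φ (s⁻¹ * t) * ψ (s⁻¹ * t) = _
  rw [hF, hH, Finset.sum_mul_sum]
  refine Finset.sum_congr rfl fun i _ => Finset.sum_congr rfl fun j _ => ?_
  rw [map_mul]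
  ring

theorem PD.smul {φ : G → ℂ} {c : ℝ} (hc : 0 ≤ c) (h1 : PD φ) : PD (fun t => (c : ℂ) * φ t) := by
  obtain ⟨ι, _, F, hF⟩ := h1
  refine ⟨ι, inferInstance, fun j s => (Real.sqrt c : ℂ) * F j s, fun s t => ?_⟩
  show (c : ℂ) * φ (s⁻¹ * t) = _
  rw [hF, Finset.mul_sum]
  refine Finset.sum_congr rfl fun j _ => ?_
  have h : ((Real.sqrt c : ℝ) : ℂ) * ((Real.sqrt c : ℝ) : ℂ) = (c : ℂ) := by
    rw [← Complex.ofReal_mul, Real.mul_self_sqrt hc]
  rw [map_mul, Complex.conj_ofReal, ← h]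
  ring

theorem PD.one : PD (fun _ : G => (1 : ℂ)) :=
  ⟨Unit, inferInstance, fun _ _ => 1, fun s t => by simp⟩

theorem PD.zero : PD (fun _ : G => (0 : ℂ)) :=
  ⟨Empty, inferInstance, fun _ _ => 0, fun s t => by simp⟩

open Classical in
theorem PD.delta : PD (fun t : G => if t = 1 then (1 : ℂ) else 0) := by
  refine ⟨G, inferInstance, fun j s => if s = j then 1 else 0, fun s t => ?_⟩
  have h1 : ∀ j : G, conj (if s = j then (1 : ℂ) else 0) * (if t = j then (1 : ℂ) else 0) =
      if j = s then (if t = s then (1 : ℂ) else 0) else 0 := by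
    intro j
    by_cases h : j = s
    · subst h
      simp
    · rw [if_neg (fun h2 => h h2.symm), if_neg h]
      simp
  rw [Finset.sum_congr rfl fun j _ => h1 j, Finset.sum_ite_eq' Finset.univ s, if_pos (Finset.mem_univ _)]
  show (if s⁻¹ * t = 1 then (1 : ℂ) else 0) = _
  by_cases h : t = s
  · rw [if_pos h, h, if_pos (inv_mul_cancel s)]
  · rw [if_neg h, if_neg]
    intro h2
    exact h ((inv_mul_eq_one.1 h2).symm)

theorem PD.sum {ι : Type} (s : Finset ι) (φ : ι → G → ℂ) (h : ∀ i ∈ s, PD (φ i)) :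
    PD (fun t => ∑ i ∈ s, φ i t) := by
  classical
  induction s using Finset.induction_on with
  | empty =>
    simp only [Finset.sum_empty]
    exact PD.zero
  | insert a s ha ih =>
    simp only [Finset.sum_insert ha]
    exact PD.add (h a (Finset.mem_insert_self a s)) (ih fun i hi => h i (Finset.mem_insert_of_mem hi))

open Classical in
/-- The sum of a positive definite function over a subgroup is `≥ 0`. -/
theorem PD.sum_nonneg {φ : G → ℂ} (h : PD φ) (K : Subgroup G) :
    0 ≤ (∑ t : G, if t ∈ K then φ t else 0).re ∧ (∑ t : G, if t ∈ K then φ t else 0).im = 0 := by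
  obtain ⟨ι, _, F, hF⟩ := h
  set S : ℂ := ∑ t : G, if t ∈ K then φ t else 0 with hS
  set a : ι → ℂ := fun j => ∑ t : G, if t ∈ K then F j t else 0 with ha
  have h1 : ∀ s ∈ K, S = ∑ t : G, if t ∈ K then φ (s⁻¹ * t) else 0 := by
    intro s hs
    rw [hS, ← Equiv.sum_comp (Equiv.mulLeft s⁻¹)]
    refine Finset.sum_congr rfl fun t _ => ?_
    simp only [Equiv.coe_mulLeft]
    have h2 : s⁻¹ * t ∈ K ↔ t ∈ K := K.mul_mem_cancel_left (K.inv_mem hs)
    by_cases h3 : t ∈ K
    · rw [if_pos h3, if_pos (h2.2 h3)]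
    · rw [if_neg h3, if_neg (fun h4 => h3 (h2.1 h4))]
  have h2 : (∑ s : G, if s ∈ K then S else 0) = ∑ j, conj (a j) * a j := by
    have h3 : ∀ s : G, (if s ∈ K then S else 0) = ∑ j, ∑ t : G, conj (if s ∈ K then F j s else 0) * (if t ∈ K then F j t else 0) := by
      intro s
      by_cases hs : s ∈ K
      · rw [if_pos hs, h1 s hs, Finset.sum_comm]
        refine Finset.sum_congr rfl fun t _ => ?_
        by_cases ht : t ∈ K
        · rw [if_pos ht, hF]
          refine Finset.sum_congr rfl fun j _ => ?_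
          rw [if_pos hs, if_pos ht]
        · simp [ht]
      · simp [hs]
    rw [Finset.sum_congr rfl fun s _ => h3 s, Finset.sum_comm]
    refine Finset.sum_congr rfl fun j _ => ?_
    rw [ha]
    simp only []
    rw [map_sum, Finset.sum_mul_sum]
  have h3 : (∑ s : G, if s ∈ K then S else 0) = ((Finset.univ.filter (fun s : G => s ∈ K)).card : ℂ) * S := by
    rw [← Finset.sum_filter, Finset.sum_const, nsmul_eq_mul]
  have h4 : ∑ j, conj (a j) * a j = ((∑ j, Complex.normSq (a j) : ℝ) : ℂ) := by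
    rw [Complex.ofReal_sum]
    refine Finset.sum_congr rfl fun j _ => ?_
    rw [mul_comm, Complex.mul_conj]
  have hpos : (0 : ℝ) < (Finset.univ.filter (fun s : G => s ∈ K)).card := by
    have : (Finset.univ.filter (fun s : G => s ∈ K)).Nonempty := ⟨1, by simp [K.one_mem]⟩
    exact_mod_cast this.card_pos
  have hS2 : S = (((∑ j, Complex.normSq (a j)) / (Finset.univ.filter (fun s : G => s ∈ K)).card : ℝ) : ℂ) := by
    have h5 : ((Finset.univ.filter (fun s : G => s ∈ K)).card : ℂ) ≠ 0 := by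
      exact_mod_cast hpos.ne'
    rw [Complex.ofReal_div, eq_div_iff (by exact_mod_cast hpos.ne'), ← h4, ← h2, h3]
    push_cast
    ring
  rw [hS2]
  refine ⟨?_, Complex.ofReal_im _⟩
  rw [Complex.ofReal_re]
  exact div_nonneg (Finset.sum_nonneg fun j _ => Complex.normSq_nonneg _) hpos.le

end Pool.Agent.H6.VA
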