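import Pool.Agent.H6.VA.Ind
import Pool.Agent.H82.CO.Fix

set_option autoImplicit false

/-!
# The restriction of `chi` to a normal subgroup

`K` normal, `e = eK K c` the order of `c` in `G ⧸ K`, `o` the order of `c ^ e`, `m = e o` the order
of `c`. `c ^ k ∈ K` iff `e ∣ k`. `eps m (e j) = eps o j` for `0 < j < o` (`eps_eq`,
`zeta m ^ e = zeta o`), and `eps m 0 = (m - 1) / 2 = (o - 1) / 2 + o (e - 1) / 2`. So on `K` the
function induced by `eps m` is `W + (n / 2) (1 - 1 / e)` (the second term at `1` only).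
-/

namespace Pool.Agent.H6.VA

open Finset Pool.Agent.H82.CO

variable {G : Type} [Group G] [Fintype G] {N : ℕ}

/-- The order of `c` in `G ⧸ K`. -/
noncomputable def eK (K : Subgroup G) [K.Normal] (c : G) : ℕ :=
  orderOf (QuotientGroup.mk' K c)

/-- The main part of the induced function on `K`. -/
noncomputable def W (K : Subgroup G) [K.Normal] (c : G) (t : G) : ℂ :=
  ((1 / (eK K c : ℝ) : ℝ) : ℂ) * ind (c ^ eK K c) (fun b => (b : ℝ) / orderOf (c ^ eK K c)) t

/-- `∑ (1 - 1 / e_i)` -/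
noncomputable def nuK (K : Subgroup G) [K.Normal] (s : Fin N → G) : ℝ :=
  ∑ i, (1 - 1 / (eK K (s i) : ℝ))

theorem eK_pos (K : Subgroup G) [K.Normal] (c : G) : 0 < eK K c :=
  orderOf_pos _

theorem pow_mem_iff (K : Subgroup G) [K.Normal] (c : G) (k : ℕ) : c ^ k ∈ K ↔ eK K c ∣ k := by
  unfold eK
  rw [orderOf_dvd_iff_pow_eq_one, ← map_pow, QuotientGroup.mk'_apply, QuotientGroup.eq_one_iff]

theorem order_eq (K : Subgroup G) [K.Normal] (c : G) :
    orderOf c = eK K c * orderOf (c ^ eK K c) := by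
  have h1 : eK K c ∣ orderOf c := by
    rw [← pow_mem_iff, pow_orderOf_eq_one]
    exact K.one_mem
  rw [orderOf_pow_of_dvd (eK_pos K c).ne' h1, Nat.mul_div_cancel' h1]

theorem eps_mul {e o j : ℕ} (he : 0 < e) (ho : 0 < o) (hj : 0 < j) (hjo : j < o) :
    eps (e * o) (e * j) = eps o j := by
  have hm : 0 < e * o := Nat.mul_pos he ho
  have hej : 0 < e * j := Nat.mul_pos he hj
  have hejo : e * j < e * o := Nat.mul_lt_mul_of_pos_left hjo he
  have he' : (e : ℂ) ≠ 0 := by exact_mod_cast he.ne'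
  have ho' : (o : ℂ) ≠ 0 := by exact_mod_cast ho.ne'
  have hz : zeta (e * o) ^ e = zeta o := by
    unfold zeta
    rw [← Complex.exp_nat_mul]
    congr 1
    push_cast
    field_simp
  rw [eps_eq hej hejo, eps_eq hj hjo, pow_mul, hz]

end Pool.Agent.H6.VA
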