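import Pool.Agent.H6.VA.Res

set_option autoImplicit false

/-!
# The restriction of `chi` to a normal subgroup, second part

`ind_res`: for `t ∈ K` only the `k = e j`, `j < o`, contribute (`pow_mem_iff`, normality); `j = 0`
separately (then `t = 1`): `eps_zero`, `order_eq`; `eps_mul` for `j > 0`. In `W` the inner function
`∑_b (b / o) ζ ^ (b j)` is `eps o j`. `chi_res`: sum over `i`.
-/

namespace Pool.Agent.H6.VA

open Finset Pool.Agent.H82.CO

variable {G : Type} [Group G] [Fintype G] {N : ℕ}

private theorem ResB_mult (f : ℕ → ℂ) {e : ℕ} (o : ℕ) (he : 0 < e) (h : ∀ k, ¬ e ∣ k → f k = 0) :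
    ∑ k ∈ range (e * o), f k = ∑ j ∈ range o, f (e * j) := by
  rw [← Finset.sum_image (f := f) (g := fun j => e * j) (s := range o)
    (fun a _ b _ hab => Nat.eq_of_mul_eq_mul_left he hab)]
  symm
  apply Finset.sum_subset
  · intro k hk
    obtain ⟨j, hj, rfl⟩ := mem_image.1 hk
    exact mem_range.2 (Nat.mul_lt_mul_of_pos_left (mem_range.1 hj) he)
  · intro k hk hk'
    apply h
    rintro ⟨j, rfl⟩
    exact hk' (mem_image.2 ⟨j, mem_range.2 (lt_of_mul_lt_mul_left (mem_range.1 hk) (Nat.zero_le e)), rfl⟩)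

open Classical in
/-- the sum over one conjugator -/
private theorem ResB_one (K : Subgroup G) [K.Normal] (c : G) {t : G} (ht : t ∈ K) (x : G) :
    ∑ k ∈ range (orderOf c), (if x * c ^ k * x⁻¹ = t then eps (orderOf c) k else 0) =
    (∑ j ∈ range (orderOf (c ^ eK K c)),
      if x * (c ^ eK K c) ^ j * x⁻¹ = t then eps (orderOf (c ^ eK K c)) j else 0) +
    if t = 1 then ((((orderOf c : ℝ) - orderOf (c ^ eK K c)) / 2 : ℝ) : ℂ) else 0 := by
  have he := eK_pos K c
  have ho : 0 < orderOf (c ^ eK K c) := orderOf_pos _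
  have hm := order_eq K c
  have hm0 : 0 < orderOf c := orderOf_pos c
  have h1 : ∑ k ∈ range (orderOf c), (if x * c ^ k * x⁻¹ = t then eps (orderOf c) k else 0) =
      ∑ j ∈ range (orderOf (c ^ eK K c)),
        (if x * c ^ (eK K c * j) * x⁻¹ = t then eps (orderOf c) (eK K c * j) else 0) := by
    have h := ResB_mult (fun k => if x * c ^ k * x⁻¹ = t then eps (orderOf c) k else 0)
      (orderOf (c ^ eK K c)) he (by
        intro k hk
        show (if x * c ^ k * x⁻¹ = t then eps (orderOf c) k else 0) = 0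
        rw [if_neg]
        intro h2
        apply hk
        rw [← pow_mem_iff]
        have h3 : c ^ k = x⁻¹ * t * x⁻¹⁻¹ := by
          rw [← h2]
          group
        rw [h3]
        exact Subgroup.Normal.conj_mem inferInstance t ht x⁻¹)
    rw [← hm] at h
    exact h
  rw [h1]
  obtain ⟨r, hr⟩ : ∃ r, orderOf (c ^ eK K c) = r + 1 := ⟨orderOf (c ^ eK K c) - 1, by omega⟩
  rw [hr, sum_range_succ', sum_range_succ', add_assoc]
  congr 1
  · refine sum_congr rfl fun j hj => ?_
    rw [pow_mul]
    have h2 : eps (orderOf c) (eK K c * (j + 1)) = eps (r + 1) (j + 1) := by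
      rw [hm, hr]
      exact eps_mul he (Nat.succ_pos r) (Nat.succ_pos j) (Nat.succ_lt_succ (mem_range.1 hj))
    rw [h2]
  · rw [mul_zero, pow_zero, pow_zero, mul_one, mul_inv_cancel, eps_zero hm0, eps_zero (Nat.succ_pos r)]
    by_cases h2 : t = 1
    · rw [if_pos h2, if_pos h2.symm, if_pos h2.symm, ← Complex.ofReal_add]
      congr 1
      push_cast
      ring
    · rw [if_neg h2, if_neg (Ne.symm h2), if_neg (Ne.symm h2), add_zero]

open Classical in
theorem ind_res (K : Subgroup G) [K.Normal] (c : G) {t : G} (ht : t ∈ K) :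
    (1 / (orderOf c : ℂ)) * ∑ x : G, ∑ k ∈ range (orderOf c),
      (if x * c ^ k * x⁻¹ = t then eps (orderOf c) k else 0) =
    W K c t + if t = 1 then (((Nat.card G : ℝ) / 2 * (1 - 1 / (eK K c : ℝ)) : ℝ) : ℂ) else 0 := by
  have he : (eK K c : ℂ) ≠ 0 := by exact_mod_cast (eK_pos K c).ne'
  have ho : (orderOf (c ^ eK K c) : ℂ) ≠ 0 := by exact_mod_cast (orderOf_pos (c ^ eK K c)).ne'
  have hm : (orderOf c : ℂ) = eK K c * orderOf (c ^ eK K c) := by exact_mod_cast order_eq K c
  rw [sum_congr rfl fun x _ => ResB_one K c ht x, sum_add_distrib, mul_add]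
  congr 1
  · rw [W, ind, ← mul_assoc]
    congr 1
    · rw [hm]
      push_cast
      rw [one_div_mul_one_div]
    · refine sum_congr rfl fun x _ => sum_congr rfl fun k _ => ?_
      split_ifs with h
      · rw [eps]
        refine sum_congr rfl fun a _ => ?_
        push_cast
        rfl
      · rfl
  · rw [sum_const, card_univ, nsmul_eq_mul]
    split_ifs with h
    · rw [← Nat.card_eq_fintype_card]
      push_cast
      rw [hm]
      field_simp
    · simp

open Classical in
/-- The restriction of `chi` to a normal subgroup. -/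
theorem chi_res (K : Subgroup G) [K.Normal] (s : Fin N → G) {t : G} (ht : t ∈ K) :
    chi s t = 1 + ∑ i, W K (s i) t +
      if t = 1 then (((Nat.card G : ℝ) * (nuK K s - 2) / 2 : ℝ) : ℂ) else 0 := by
  rw [chi, sum_congr rfl fun i _ => ind_res K (s i) ht, sum_add_distrib]
  split_ifs with h
  · rw [nuK]
    push_cast
    rw [← mul_sum]
    ring
  · simp

end Pool.Agent.H6.VA
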