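import Pool.Agent.H6.VA.ResB
import Pool.Agent.H6.VA.IndPD

set_option autoImplicit false

/-!
# The sum of the squares of `chi` over a normal subgroup

`P = 1 + ∑ W_i` is positive definite. `P_one`: `W K c 1 = (n / 2) (1 / e - 1 / m)` (`ind_one`).
`sum_chi_sq`: `chi = P + (n (nuK - 2) / 2) δ_1` on `K` (`chi_res`).
-/

namespace Pool.Agent.H6.VA

open Finset Pool.Agent.H82.CO

variable {G : Type} [Group G] [Fintype G] {N : ℕ}

/-- `1 + ∑ W_i` -/
noncomputable def P (K : Subgroup G) [K.Normal] (s : Fin N → G) (t : G) : ℂ :=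
  1 + ∑ i, W K (s i) t

open Classical in
/-- The sum of the values of `f` on `K`. -/
noncomputable def sumK (K : Subgroup G) (f : G → ℂ) : ℂ := ∑ t : G, if t ∈ K then f t else 0

private theorem sk_sum (m : ℕ) : ∑ k ∈ range m, (k : ℝ) = m * (m - 1) / 2 := by
  induction m with
  | zero => simp
  | succ m ih => rw [sum_range_succ, ih]; push_cast; ring

theorem P_pd (K : Subgroup G) [K.Normal] (s : Fin N → G) : PD (P K s) := by
  have h1 : ∀ i ∈ (univ : Finset (Fin N)), PD (fun t => W K (s i) t) := by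
    intro i _
    refine PD.smul (c := 1 / (eK K (s i) : ℝ)) (by positivity) ?_
    exact ind_pd _ fun a => by positivity
  exact PD.add PD.one (PD.sum univ (fun i t => W K (s i) t) h1)

theorem P_one (K : Subgroup G) [K.Normal] (s : Fin N → G) :
    (P K s 1).im = 0 ∧ 0 ≤ (P K s 1).re ∧
      (P K s 1).re ≤ 1 + (Nat.card G : ℝ) * N / 2 := by
  have hW : ∀ i, ∃ w : ℝ, W K (s i) 1 = (w : ℂ) ∧ 0 ≤ w ∧ w ≤ (Nat.card G : ℝ) / 2 := by
    intro i
    have he := eK_pos K (s i)
    have he' : (1 : ℝ) ≤ (eK K (s i) : ℝ) := by exact_mod_cast he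
    have ho := orderOf_pos (s i ^ eK K (s i))
    have ho' : (1 : ℝ) ≤ (orderOf (s i ^ eK K (s i)) : ℝ) := by exact_mod_cast ho
    have h1 : ∑ a ∈ range (orderOf (s i ^ eK K (s i))), (a : ℝ) / orderOf (s i ^ eK K (s i)) =
        ((orderOf (s i ^ eK K (s i)) : ℝ) - 1) / 2 := by
      rw [← sum_div, sk_sum]
      field_simp
    refine ⟨1 / (eK K (s i) : ℝ) * ((Nat.card G : ℝ) / orderOf (s i ^ eK K (s i)) *
      ∑ a ∈ range (orderOf (s i ^ eK K (s i))), (a : ℝ) / orderOf (s i ^ eK K (s i))), ?_, ?_, ?_⟩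
    · unfold W
      rw [ind_one, ← Complex.ofReal_mul]
    · rw [h1]
      have h2 : 0 ≤ ((orderOf (s i ^ eK K (s i)) : ℝ) - 1) / 2 := by linarith
      positivity
    · rw [h1]
      generalize (orderOf (s i ^ eK K (s i)) : ℝ) = o at *
      generalize (eK K (s i) : ℝ) = e at *
      have hn : (0 : ℝ) ≤ (Nat.card G : ℝ) := Nat.cast_nonneg _
      have h2 : 1 / e * ((Nat.card G : ℝ) / o * ((o - 1) / 2)) ≤ 1 * ((Nat.card G : ℝ) / o * ((o - 1) / 2)) := by
        refine mul_le_mul_of_nonneg_right ?_ ?_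
        · rw [div_le_one (by linarith)]
          exact he'
        · exact mul_nonneg (div_nonneg hn (by linarith)) (by linarith)
      refine h2.trans ?_
      rw [one_mul, div_mul_eq_mul_div, div_le_iff₀ (by linarith)]
      nlinarith
  choose w hw hw0 hw1 using hW
  have hP : P K s 1 = ((1 + ∑ i, w i : ℝ) : ℂ) := by
    unfold P
    rw [sum_congr rfl fun i _ => hw i]
    push_cast
    rfl
  rw [hP, Complex.ofReal_im, Complex.ofReal_re]
  refine ⟨rfl, ?_, ?_⟩
  · have : 0 ≤ ∑ i, w i := sum_nonneg fun i _ => hw0 i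
    linarith
  · have h2 : ∑ i, w i ≤ ∑ _i : Fin N, (Nat.card G : ℝ) / 2 := sum_le_sum fun i _ => hw1 i
    rw [sum_const, card_univ, Fintype.card_fin, nsmul_eq_mul] at h2
    have h3 : (N : ℝ) * ((Nat.card G : ℝ) / 2) = (Nat.card G : ℝ) * N / 2 := by ring
    linarith

theorem sumP_nonneg (K : Subgroup G) [K.Normal] (s : Fin N → G) :
    0 ≤ (sumK K fun t => P K s t ^ 2).re := by
  have h1 := (PD.sum_nonneg (PD.mul (P_pd K s) (P_pd K s)) K).1
  unfold sumK
  simp only [pow_two]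
  exact h1

/-- The expansion of the square. -/
theorem sum_chi_sq (K : Subgroup G) [K.Normal] (s : Fin N → G) :
    (sumK K fun t => chi s t ^ 2).re =
      (sumK K fun t => P K s t ^ 2).re + (Nat.card G : ℝ) * (nuK K s - 2) * (P K s 1).re +
        ((Nat.card G : ℝ) * (nuK K s - 2) / 2) ^ 2 := by
  classical
  have hc : sumK K (fun t => chi s t ^ 2) = sumK K (fun t => P K s t ^ 2) +
      (2 * (((Nat.card G : ℝ) * (nuK K s - 2) / 2 : ℝ) : ℂ) * P K s 1 +
        (((Nat.card G : ℝ) * (nuK K s - 2) / 2 : ℝ) : ℂ) ^ 2) := by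
    unfold sumK
    have h1 : ∀ t : G, (if t ∈ K then chi s t ^ 2 else 0) = (if t ∈ K then P K s t ^ 2 else 0) +
        (if t = 1 then (2 * (((Nat.card G : ℝ) * (nuK K s - 2) / 2 : ℝ) : ℂ) * P K s 1 +
        (((Nat.card G : ℝ) * (nuK K s - 2) / 2 : ℝ) : ℂ) ^ 2) else 0) := by
      intro t
      by_cases ht : t ∈ K
      · rw [if_pos ht, if_pos ht, chi_res K s ht]
        by_cases h1 : t = 1
        · rw [if_pos h1, if_pos h1, h1]
          unfold P
          ring
        · rw [if_neg h1, if_neg h1]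
          unfold P
          ring
      · rw [if_neg ht, if_neg ht, if_neg (fun h => ht (by rw [h]; exact K.one_mem)), add_zero]
    rw [sum_congr rfl fun t _ => h1 t, sum_add_distrib, sum_ite_eq' univ (1 : G), if_pos (mem_univ _)]
  rw [hc, Complex.add_re, Complex.add_re]
  have h2 : (2 * (((Nat.card G : ℝ) * (nuK K s - 2) / 2 : ℝ) : ℂ) * P K s 1).re =
      (Nat.card G : ℝ) * (nuK K s - 2) * (P K s 1).re := by
    have h3 : (2 * (((Nat.card G : ℝ) * (nuK K s - 2) / 2 : ℝ) : ℂ) * P K s 1) =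
        (((Nat.card G : ℝ) * (nuK K s - 2) : ℝ) : ℂ) * P K s 1 := by
      push_cast
      ring
    rw [h3, Complex.re_ofReal_mul]
  have h4 : ((((Nat.card G : ℝ) * (nuK K s - 2) / 2 : ℝ) : ℂ) ^ 2).re = ((Nat.card G : ℝ) * (nuK K s - 2) / 2) ^ 2 := by
    rw [← Complex.ofReal_pow, Complex.ofReal_re]
  rw [h2, h4]
  ring

end Pool.Agent.H6.VA
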