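import Pool.Agent.H6.VA.SK

set_option autoImplicit false

/-!
# The lower bound for the sum of the squares

`P = 1 + ∑ W_i` is positive definite. `Q_i = (1 / e_i) ind κ_i ((b / o) (1 - b / o))` is real valued
and `P - Q_i` is positive definite (`b / o - (b / o) (1 - b / o) = (b / o) ^ 2 ≥ 0`), so
`∑_K P ^ 2 = ∑_K Q_i ^ 2 + 2 ∑_K Q_i (P - Q_i) + ∑_K (P - Q_i) ^ 2 ≥ Q_i(1) ^ 2`, and
`Q_i(1) = (n / (e o)) ∑_b (b / o) (1 - b / o) = (n / e) (o ^ 2 - 1) / (6 o ^ 2) ≥ n / (8 e)` for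
`o ≥ 2`.
-/

namespace Pool.Agent.H6.VA

open Finset Pool.Agent.H82.CO

variable {G : Type} [Group G] [Fintype G] {N : ℕ}

private theorem SKB_sum (o n : ℕ) : ∑ a ∈ range n, (a : ℝ) * ((o : ℝ) - a) =
    (o : ℝ) * (n * (n - 1)) / 2 - (n - 1) * n * (2 * n - 1) / 6 := by
  induction n with
  | zero => simp
  | succ n ih =>
    rw [sum_range_succ, ih]
    push_cast
    ring

private theorem SKB_alpha (o : ℕ) (ho : 0 < o) :
    ∑ a ∈ range o, ((a : ℝ) / o) * (((o - a : ℕ) : ℝ) / o) = ((o : ℝ) ^ 2 - 1) / (6 * o) := by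
  have ho' : (o : ℝ) ≠ 0 := Nat.cast_ne_zero.2 ho.ne'
  have h1 : ∑ a ∈ range o, ((a : ℝ) / o) * (((o - a : ℕ) : ℝ) / o) =
      (∑ a ∈ range o, (a : ℝ) * ((o : ℝ) - a)) / (o : ℝ) ^ 2 := by
    rw [Finset.sum_div]
    refine sum_congr rfl fun a ha => ?_
    rw [Nat.cast_sub (mem_range.1 ha).le]
    field_simp
  rw [h1, SKB_sum]
  field_simp
  ring

private theorem SKB_W_pd (K : Subgroup G) [K.Normal] (c : G) : PD (W K c) :=
  PD.smul (by positivity) (ind_pd _ fun a => by positivity)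

/-- A positive definite function minus a real valued positive definite function. -/
private theorem SKB_ge (K : Subgroup G) {p q r : G → ℂ} (hp : ∀ t, p t = q t + r t) (hq : PD q)
    (hr : PD r) (hre : ∀ t, (q t).im = 0) : (q 1).re ^ 2 ≤ (sumK K fun t => p t ^ 2).re := by
  classical
  have h1 : (sumK K fun t => p t ^ 2) =
      (sumK K fun t => q t * q t) + 2 * (sumK K fun t => q t * r t) +
        sumK K fun t => r t * r t := by
    unfold sumK
    rw [mul_sum, ← sum_add_distrib, ← sum_add_distrib]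
    refine sum_congr rfl fun t _ => ?_
    by_cases ht : t ∈ K
    · rw [if_pos ht, if_pos ht, if_pos ht, if_pos ht]
      show p t ^ 2 = q t * q t + 2 * (q t * r t) + r t * r t
      rw [hp]
      ring
    · rw [if_neg ht, if_neg ht, if_neg ht, if_neg ht]
      ring
  have h2 : 0 ≤ (sumK K fun t => q t * r t).re := ((hq.mul hr).sum_nonneg K).1
  have h3 : 0 ≤ (sumK K fun t => r t * r t).re := ((hr.mul hr).sum_nonneg K).1
  have h4 : (q 1).re ^ 2 ≤ (sumK K fun t => q t * q t).re := by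
    have h5 : (sumK K fun t => q t * q t).re = ∑ t : G, if t ∈ K then (q t).re ^ 2 else 0 := by
      unfold sumK
      rw [Complex.re_sum]
      refine sum_congr rfl fun t _ => ?_
      by_cases ht : t ∈ K
      · rw [if_pos ht, if_pos ht, Complex.mul_re, hre t]
        ring
      · rw [if_neg ht, if_neg ht, Complex.zero_re]
    rw [h5]
    have h6 := single_le_sum (s := univ) (f := fun t : G => if t ∈ K then (q t).re ^ 2 else 0)
      (fun t _ => by
        show 0 ≤ if t ∈ K then (q t).re ^ 2 else 0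
        by_cases ht : t ∈ K
        · rw [if_pos ht]
          positivity
        · rw [if_neg ht]) (mem_univ (1 : G))
    have h7 : (if (1 : G) ∈ K then (q 1).re ^ 2 else 0) = (q 1).re ^ 2 := if_pos K.one_mem
    rw [← h7]
    exact h6
  have h8 : (2 * (sumK K fun t => q t * r t)).re = 2 * (sumK K fun t => q t * r t).re := by
    rw [Complex.mul_re]
    norm_num
  rw [h1, Complex.add_re, Complex.add_re, h8]
  linarith

theorem sumP_ge (K : Subgroup G) [K.Normal] (s : Fin N → G) (i : Fin N)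
    (hi : s i ^ eK K (s i) ≠ 1) :
    ((Nat.card G : ℝ) / (8 * eK K (s i))) ^ 2 ≤ (sumK K fun t => P K s t ^ 2).re := by
  classical
  obtain ⟨e, he⟩ : ∃ e, e = eK K (s i) := ⟨_, rfl⟩
  obtain ⟨c, hc⟩ : ∃ c, c = s i ^ eK K (s i) := ⟨_, rfl⟩
  obtain ⟨o, ho⟩ : ∃ o, o = orderOf c := ⟨_, rfl⟩
  rw [← hc] at hi
  rw [← he]
  have hepos : (0 : ℝ) < (e : ℝ) := by
    rw [he]
    exact Nat.cast_pos.2 (eK_pos K (s i))
  have hopos : 0 < o := by
    rw [ho]
    exact orderOf_pos c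
  have ho1 : o ≠ 1 := by
    rw [ho]
    intro h
    exact hi (orderOf_eq_one_iff.1 h)
  have ho2 : (2 : ℝ) ≤ (o : ℝ) := by exact_mod_cast (by omega : 2 ≤ o)
  have hoR : (0 : ℝ) < (o : ℝ) := by linarith
  obtain ⟨α, hα⟩ : ∃ α : ℕ → ℝ, α = fun a : ℕ => ((a : ℝ) / o) * (((o - a : ℕ) : ℝ) / o) := ⟨_, rfl⟩
  obtain ⟨β, hβ⟩ : ∃ β : ℕ → ℝ, β = fun a : ℕ => (a : ℝ) / o - α a := ⟨_, rfl⟩
  have hα0 : ∀ a, 0 ≤ α a := by
    intro a
    rw [hα]
    positivity
  have hβ0 : ∀ a, 0 ≤ β a := by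
    intro a
    rw [hβ, hα]
    show 0 ≤ (a : ℝ) / o - ((a : ℝ) / o) * (((o - a : ℕ) : ℝ) / o)
    have h1 : (((o - a : ℕ) : ℝ) / o) ≤ 1 := by
      rw [div_le_one hoR]
      exact_mod_cast Nat.sub_le o a
    have h2 : 0 ≤ (a : ℝ) / o := by positivity
    nlinarith
  have hαβ : (fun b : ℕ => (b : ℝ) / o) = fun a => α a + β a := by
    funext a
    rw [hβ]
    ring
  have hWi : ∀ t, W K (s i) t = ((1 / (e : ℝ) : ℝ) : ℂ) * ind c α t +
      ((1 / (e : ℝ) : ℝ) : ℂ) * ind c β t := by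
    intro t
    rw [W, ← hc, ← he, ← ho, hαβ, ind_add, mul_add]
  have h1e : (0 : ℝ) ≤ 1 / (e : ℝ) := by positivity
  have hq : PD fun t => ((1 / (e : ℝ) : ℝ) : ℂ) * ind c α t := PD.smul h1e (ind_pd c hα0)
  have hr : PD fun t => (1 + ∑ j ∈ univ.erase i, W K (s j) t) +
      ((1 / (e : ℝ) : ℝ) : ℂ) * ind c β t :=
    PD.add (PD.add PD.one (PD.sum (univ.erase i) (fun j => W K (s j))
      fun j _ => SKB_W_pd K (s j))) (PD.smul h1e (ind_pd c hβ0))
  have hp : ∀ t, P K s t = ((1 / (e : ℝ) : ℝ) : ℂ) * ind c α t +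
      ((1 + ∑ j ∈ univ.erase i, W K (s j) t) + ((1 / (e : ℝ) : ℝ) : ℂ) * ind c β t) := by
    intro t
    rw [P, ← add_sum_erase univ (fun j => W K (s j) t) (mem_univ i), hWi t]
    ring
  have hre : ∀ t, (((1 / (e : ℝ) : ℝ) : ℂ) * ind c α t).im = 0 := by
    intro t
    have h1 := ind_real c (α := α) (by
      intro a ha hao
      rw [← ho] at hao ⊢
      rw [hα]
      show ((((o - a : ℕ) : ℝ)) / o) * (((o - (o - a) : ℕ) : ℝ) / o) =
        ((a : ℝ) / o) * (((o - a : ℕ) : ℝ) / o)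
      rw [Nat.sub_sub_self hao.le]
      ring) t
    rw [Complex.im_ofReal_mul, h1, mul_zero]
  have hmain := SKB_ge K hp hq hr hre
  refine le_trans ?_ hmain
  have hone : (((1 / (e : ℝ) : ℝ) : ℂ) * ind c α 1).re =
      1 / (e : ℝ) * ((Nat.card G : ℝ) / o * (((o : ℝ) ^ 2 - 1) / (6 * o))) := by
    rw [ind_one, ← ho, hα, SKB_alpha o hopos, ← Complex.ofReal_mul, Complex.ofReal_re]
  rw [hone]
  have hn : (0 : ℝ) ≤ (Nat.card G : ℝ) := Nat.cast_nonneg _
  refine pow_le_pow_left₀ (by positivity) ?_ 2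
  have h5 : 1 / (e : ℝ) * ((Nat.card G : ℝ) / o * (((o : ℝ) ^ 2 - 1) / (6 * o))) =
      (Nat.card G : ℝ) / (8 * e) * ((8 * ((o : ℝ) ^ 2 - 1)) / (6 * (o : ℝ) ^ 2)) := by
    field_simp
  rw [h5]
  refine le_mul_of_one_le_right (by positivity) ?_
  rw [one_le_div (by positivity)]
  nlinarith

end Pool.Agent.H6.VA
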