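import Mathlib

set_option autoImplicit false

/-!
# Normal subgroups generated by few elements with few conjugates

`Y` finite, every element of `Y` has fewer than `L` conjugates, `K` the normal closure of `Y`. The
set `X` of all conjugates of elements of `Y` has at most `|Y| L` elements; `G` acts on it by
conjugation, the kernel `C` centralizes `X`, hence `K`; its index is at most `(|Y| L)!`. `A = K ⊓ C`.
-/

namespace Pool.Agent.H6.VA

variable {G : Type} [Group G] [Fintype G]

/-- An abelian normal subgroup of bounded index. -/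
def AbN (G : Type) [Group G] (B : ℕ) : Prop :=
  ∃ A : Subgroup G, A.Normal ∧ (∀ a ∈ A, ∀ b ∈ A, a * b = b * a) ∧ A.index ≤ B ∧ A.index ≠ 0

open Classical in
/-- The number of conjugates. -/
private theorem struct_card (y : G) :
    (Finset.univ.image fun g : G => g * y * g⁻¹).card ≤
      (Subgroup.centralizer ({y} : Set G)).index := by
  have hF : ∀ a b : G, (QuotientGroup.leftRel (Subgroup.centralizer ({y} : Set G))) a b →
      a * y * a⁻¹ = b * y * b⁻¹ := by
    intro a b hab
    rw [QuotientGroup.leftRel_apply, Subgroup.mem_centralizer_singleton_iff] at hab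
    have h1 : b * y = a * y * a⁻¹ * b := by
      have h2 : a * (a⁻¹ * b * y) = a * (y * (a⁻¹ * b)) := by rw [hab]
      simpa [mul_assoc] using h2
    rw [h1]
    group
  have hsub : (Finset.univ.image fun g : G => g * y * g⁻¹) ⊆
      Finset.univ.image fun q : G ⧸ Subgroup.centralizer ({y} : Set G) =>
        Quotient.liftOn' q (fun g : G => g * y * g⁻¹) hF := by
    intro x hx
    obtain ⟨g, _, hg⟩ := Finset.mem_image.1 hx
    exact Finset.mem_image.2 ⟨QuotientGroup.mk g, Finset.mem_univ _, hg⟩
  refine (Finset.card_le_card hsub).trans (Finset.card_image_le.trans ?_)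
  rw [Finset.card_univ, Subgroup.index_eq_card, Nat.card_eq_fintype_card]

theorem struct (Y : Finset G) (L : ℕ)
    (hY : ∀ y ∈ Y, (Subgroup.centralizer ({y} : Set G)).index ≤ L) :
    AbN G ((Subgroup.normalClosure (Y : Set G)).index * (Y.card * L).factorial) := by
  classical
  set X : Finset G := Y.biUnion fun y => Finset.univ.image fun g : G => g * y * g⁻¹ with hX
  have hmem : ∀ x : G, x ∈ X ↔ ∃ y ∈ Y, ∃ g : G, g * y * g⁻¹ = x := by
    intro x
    simp [hX]
  have hcard : X.card ≤ Y.card * L :=
    Finset.card_biUnion_le_card_mul _ _ _ fun y hy => (struct_card y).trans (hY y hy)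
  have hconj : ∀ (g x : G), x ∈ X → g * x * g⁻¹ ∈ X := by
    intro g x hx
    obtain ⟨y, hy, k, hk⟩ := (hmem x).1 hx
    refine (hmem _).2 ⟨y, hy, g * k, ?_⟩
    rw [← hk]
    group
  let φ : G →* Equiv.Perm X := MonoidHom.mk'
    (fun g =>
      { toFun := fun x => ⟨g * x.1 * g⁻¹, hconj g x.1 x.2⟩
        invFun := fun x => ⟨g⁻¹ * x.1 * g, by
          have h1 := hconj g⁻¹ x.1 x.2
          rwa [inv_inv] at h1⟩
        left_inv := fun x => Subtype.ext (by
          change g⁻¹ * (g * x.1 * g⁻¹) * g = x.1
          group)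
        right_inv := fun x => Subtype.ext (by
          change g * (g⁻¹ * x.1 * g) * g⁻¹ = x.1
          group) })
    (fun a b => by
      apply Equiv.ext
      intro x
      apply Subtype.ext
      change (a * b) * x.1 * (a * b)⁻¹ = a * (b * x.1 * b⁻¹) * a⁻¹
      group)
  have hφ : ∀ (g : G) (x : X), ((φ g) x).1 = g * x.1 * g⁻¹ := fun _ _ => rfl
  have hker : ∀ c ∈ φ.ker, ∀ x ∈ X, c * x = x * c := by
    intro c hc x hx
    have h1 : φ c = 1 := hc
    have h2 := hφ c ⟨x, hx⟩
    rw [h1] at h2
    have h3 : x = c * x * c⁻¹ := h2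
    calc c * x = (c * x * c⁻¹) * c := by group
      _ = x * c := by rw [← h3]
  have hkc : ∀ c ∈ φ.ker, ∀ k ∈ Subgroup.normalClosure (Y : Set G), c * k = k * c := by
    intro c hc k hk
    have h1 : Subgroup.normalClosure (Y : Set G) ≤ Subgroup.centralizer ({c} : Set G) := by
      rw [Subgroup.normalClosure, Subgroup.closure_le]
      intro x hx
      obtain ⟨y, hy, hyx⟩ := Group.mem_conjugatesOfSet_iff.1 hx
      obtain ⟨g, hg⟩ := isConj_iff.1 hyx
      have hxX : x ∈ X := (hmem x).2 ⟨y, hy, g, hg⟩
      rw [SetLike.mem_coe, Subgroup.mem_centralizer_singleton_iff]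
      exact (hker c hc x hxX).symm
    have h2 := h1 hk
    rw [Subgroup.mem_centralizer_singleton_iff] at h2
    exact h2.symm
  refine ⟨Subgroup.normalClosure (Y : Set G) ⊓ φ.ker, inferInstance, ?_, ?_, ?_⟩
  · intro a ha b hb
    exact hkc a (Subgroup.mem_inf.1 ha).2 b (Subgroup.mem_inf.1 hb).1
  · refine Subgroup.index_inf_le.trans (Nat.mul_le_mul_left _ ?_)
    rw [Subgroup.index_ker]
    calc Nat.card φ.range ≤ Nat.card (Equiv.Perm X) := Nat.card_le_card_of_injective _
          (Subtype.val_injective)
      _ = X.card.factorial := by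
          rw [Nat.card_eq_fintype_card, Fintype.card_perm, Fintype.card_coe]
      _ ≤ (Y.card * L).factorial := Nat.factorial_le hcard
  · exact Subgroup.index_ne_zero_of_finite

end Pool.Agent.H6.VA
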